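import Mathlib
import Pool.Agent.H75.Perc.Prob

set_option autoImplicit false

/-!
# Uniform Cardy formula on the triangular lattice (MP_2e6055): base definitions

Faces (hexagons) = sites of the triangular lattice = `ℤ × ℤ`, neighbours `±(1,0), ±(0,1), ±(1,-1)`,
centre `i + j e^{iπ/3}`.  Vertices of the hexagonal lattice = triangles, `(i,j,false)` = up triangle
with the faces `(i,j), (i+1,j), (i,j+1)`, `(i,j,true)` = down triangle with the faces
`(i+1,j), (i,j+1), (i+1,j+1)`.  Every vertex `v` has three faces `fc v k` and three edges `ed v k`,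
`k : Fin 3`, counterclockwise with increasing `k`; `fc v k` is opposite to `ed v k`; the edge
`ed v k` separates `fc v (k+1)` from `fc v (k+2)` and leads to the vertex `nb v k`.
The T-edge vector is `ctr (fc v (k+2)) - ctr (fc v (k+1)) = ± τ^k`, `+` for up, `-` for down.
-/

namespace Pool.Agent.H7.UC

abbrev Fc := ℤ × ℤ
abbrev Vx := ℤ × ℤ × Bool
abbrev Ed := ℤ × ℤ × Fin 3

/-- the three faces at a vertex -/
def fc : Vx → Fin 3 → Fc
  | (i, j, false), 0 => (i, j + 1)
  | (i, j, false), 1 => (i, j)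
  | (i, j, false), 2 => (i + 1, j)
  | (i, j, true), 0 => (i + 1, j)
  | (i, j, true), 1 => (i + 1, j + 1)
  | (i, j, true), 2 => (i, j + 1)

/-- the three edges at a vertex; the third component of an edge is its direction `k` -/
def ed : Vx → Fin 3 → Ed
  | (i, j, false), k => (i, j, k)
  | (i, j, true), 0 => (i, j + 1, 0)
  | (i, j, true), 1 => (i, j, 1)
  | (i, j, true), 2 => (i + 1, j, 2)

/-- the other end of the edge `ed v k` -/
def nb : Vx → Fin 3 → Vx
  | (i, j, false), 0 => (i, j - 1, true)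
  | (i, j, false), 1 => (i, j, true)
  | (i, j, false), 2 => (i - 1, j, true)
  | (i, j, true), 0 => (i, j + 1, false)
  | (i, j, true), 1 => (i, j, false)
  | (i, j, true), 2 => (i + 1, j, false)

/-- the two faces of an edge -/
def lf (e : Ed) : Fc := fc (e.1, e.2.1, false) (e.2.2 + 1)
def rf (e : Ed) : Fc := fc (e.1, e.2.1, false) (e.2.2 + 2)

theorem nb_nb (v : Vx) (k : Fin 3) : nb (nb v k) k = v := by
  obtain ⟨i, j, b⟩ := v
  fin_cases k <;> cases b <;> simp [nb]

theorem ed_nb (v : Vx) (k : Fin 3) : ed (nb v k) k = ed v k := by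
  obtain ⟨i, j, b⟩ := v
  fin_cases k <;> cases b <;> simp [nb, ed]

theorem ed_dir (v : Vx) (k : Fin 3) : (ed v k).2.2 = k := by
  obtain ⟨i, j, b⟩ := v
  fin_cases k <;> cases b <;> simp [ed]

/-- an edge of direction `k` has exactly the ends `v`, `nb v k` -/
theorem ed_eq_iff (v w : Vx) (k l : Fin 3) : ed v k = ed w l ↔ k = l ∧ (w = v ∨ w = nb v k) := by
  obtain ⟨i, j, b⟩ := v
  obtain ⟨i', j', b'⟩ := w
  fin_cases k <;> fin_cases l <;> cases b <;> cases b' <;> simp [ed, nb] <;> omega

theorem nb_ne (v : Vx) (k : Fin 3) : nb v k ≠ v := by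
  obtain ⟨i, j, b⟩ := v
  fin_cases k <;> cases b <;> simp [nb]

theorem nb_inj (v : Vx) (k l : Fin 3) : nb v k = nb v l ↔ k = l := by
  obtain ⟨i, j, b⟩ := v
  fin_cases k <;> fin_cases l <;> cases b <;> simp [nb] <;> omega

theorem fc_inj (v : Vx) (k l : Fin 3) : fc v k = fc v l ↔ k = l := by
  obtain ⟨i, j, b⟩ := v
  fin_cases k <;> fin_cases l <;> cases b <;> simp [fc]

theorem fc_nb1 (v : Vx) (k : Fin 3) : fc (nb v k) (k + 1) = fc v (k + 2) := by
  obtain ⟨i, j, b⟩ := v
  fin_cases k <;> cases b <;> simp [nb, fc]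

theorem fc_nb2 (v : Vx) (k : Fin 3) : fc (nb v k) (k + 2) = fc v (k + 1) := by
  obtain ⟨i, j, b⟩ := v
  fin_cases k <;> cases b <;> simp [nb, fc]

/-- the faces of `ed v k` are `fc v (k+1)`, `fc v (k+2)`, in this order for an up vertex -/
theorem faces_ed (v : Vx) (k : Fin 3) :
    (v.2.2 = false ∧ lf (ed v k) = fc v (k + 1) ∧ rf (ed v k) = fc v (k + 2)) ∨
    (v.2.2 = true ∧ lf (ed v k) = fc v (k + 2) ∧ rf (ed v k) = fc v (k + 1)) := by
  obtain ⟨i, j, b⟩ := v
  fin_cases k <;> cases b <;> simp [ed, fc, lf, rf]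

/-- adjacency of faces -/
def adjF (f g : Fc) : Prop := ∃ e : Ed, (lf e = f ∧ rf e = g) ∨ (lf e = g ∧ rf e = f)

/-- indicator with values in `ZMod 2` -/
noncomputable def ind {α : Type*} (s : Set α) (a : α) : ZMod 2 := by
  classical exact if a ∈ s then 1 else 0

/-- boundary of a set of faces: the edges between a face of `s` and a face not in `s` -/
noncomputable def bd (s : Set Fc) (e : Ed) : ZMod 2 := ind s (lf e) + ind s (rf e)

/-- boundary (degree mod 2) of a chain of edges -/
def dv (x : Ed → ZMod 2) (v : Vx) : ZMod 2 := x (ed v 0) + x (ed v 1) + x (ed v 2)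

/-- the edges of `U` : at least one face in `U` -/
def inE (U : Finset Fc) (e : Ed) : Prop := lf e ∈ U ∨ rf e ∈ U
/-- the inner edges of `U` -/
def inI (U : Finset Fc) (e : Ed) : Prop := lf e ∈ U ∧ rf e ∈ U
/-- the boundary edges of `U` : exactly one face in `U` -/
def isB (U : Finset Fc) (e : Ed) : Prop := (lf e ∈ U ∧ rf e ∉ U) ∨ (lf e ∉ U ∧ rf e ∈ U)
/-- the vertices of `U` -/
def inV (U : Finset Fc) (v : Vx) : Prop := ∃ k, fc v k ∈ U

/-- discrete simply connected domain: a finite connected set of faces with connected complement -/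
structure IsDom (U : Finset Fc) : Prop where
  ne : U.Nonempty
  conn : ∀ f ∈ U, ∀ g ∈ U, Relation.ReflTransGen (fun a b => b ∈ U ∧ adjF a b) f g
  cconn : ∀ f ∉ U, ∀ g ∉ U, Relation.ReflTransGen (fun a b => b ∉ U ∧ adjF a b) f g

/-- `n` marked boundary vertices (each with exactly one face in `U`), counterclockwise, and the
boundary arcs `C j` from `u j` to `u (j+1)`. -/
structure Marks (U : Finset Fc) (n : ℕ) [NeZero n] where
  u : Fin n → Vx
  C : Fin n → Finset Ed
  /-- the only face `fc (u j) k` of `U` at `u j`; the edge `ed (u j) (k+1)` leaves `u j` counterclockwise -/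
  out : ∀ j, ∃ k, fc (u j) k ∈ U ∧ fc (u j) (k + 1) ∉ U ∧ fc (u j) (k + 2) ∉ U ∧ ed (u j) (k + 1) ∈ C j
  mem : ∀ e, isB U e ↔ ∃ j, e ∈ C j
  disj : ∀ j l, j ≠ l → Disjoint (C j) (C l)
  dvC : ∀ j v, dv (ind (↑(C j) : Set Ed)) v = ind {u j} v + ind {u (j + 1)} v
  inj : Function.Injective u

/-- adjacency of vertices through an edge of the chain `x` -/
def AdjC (x : Ed → ZMod 2) (v w : Vx) : Prop := ∃ k, w = nb v k ∧ x (ed v k) = 1
/-- connection in the chain `x` -/
def Conn (x : Ed → ZMod 2) (v w : Vx) : Prop := Relation.ReflTransGen (AdjC x) v w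

/-- the chain `x` without the edge `e` -/
noncomputable def del (x : Ed → ZMod 2) (e : Ed) : Ed → ZMod 2 := fun e' => by
  classical exact if e' = e then 0 else x e'

/-- `x` is a chain with an odd vertex at `v`; the half strand which starts at the middle of the edge
`ed v k` is connected to `u`: delete the edge; if it was present the strand starts at its other end,
if it was absent it starts at `v`. -/
noncomputable def SConn (x : Ed → ZMod 2) (v : Vx) (k : Fin 3) (u : Vx) : Prop :=
  (x (ed v k) = 1 ∧ Conn (del x (ed v k)) (nb v k) u) ∨ (x (ed v k) = 0 ∧ Conn (del x (ed v k)) v u)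

/-- reference chains for the defect `v`: supported on the edges of `U`, odd exactly at `v` and at the
three marks (mod 2, multiplicities cancel) -/
structure IsRef {U : Finset Fc} (M : Marks U 3) (v : Vx) (c : Ed → ZMod 2) : Prop where
  supp : ∀ e, c e ≠ 0 → inE U e
  dv : ∀ w, dv c w = ind {v} w + ind {M.u 0} w + ind {M.u 1} w + ind {M.u 2} w

open Pool.Agent.H75.Perc in
/-- the probability that the middle of the edge `ed v k` is connected to the mark `j`, with the
reference chain `c` (the value does not depend on it, see `D1`) -/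
noncomputable def X {U : Finset Fc} (M : Marks U 3) (c : Ed → ZMod 2) (v : Vx) (k : Fin 3)
    (j : Fin 3) : ℝ :=
  Pr U (fun ω => SConn (fun e => c e + bd (↑ω) e) v k (M.u j))

/-- `τ = exp(2πi/3)` -/
noncomputable def tau : ℂ := Complex.exp (2 * Real.pi * Complex.I / 3)
/-- `ω = exp(πi/3)` -/
noncomputable def om : ℂ := Complex.exp (Real.pi * Complex.I / 3)

/-- the observable at the middle of the edge `ed v k` -/
noncomputable def obs {U : Finset Fc} (M : Marks U 3) (c : Ed → ZMod 2) (v : Vx) (k : Fin 3) : ℂ :=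
  ∑ j : Fin 3, tau ^ (j : ℕ) * (X M c v k j : ℂ)

/-- centre of a face -/
noncomputable def ctr (f : Fc) : ℂ := (f.1 : ℂ) + (f.2 : ℂ) * om
/-- position of a vertex -/
noncomputable def pv (v : Vx) : ℂ := (ctr (fc v 0) + ctr (fc v 1) + ctr (fc v 2)) / 3

/-- the black cells touching a set of boundary edges -/
def touch (A : Finset Ed) (f : Fc) : Prop := ∃ e ∈ A, lf e = f ∨ rf e = f

/-- a path of faces of `ω` from the arc `A` to the arc `B` (all configurations are subsets of `U`) -/
def Cross (U : Finset Fc) (A B : Finset Ed) (ω : Finset Fc) : Prop :=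
  ∃ f g, f ∈ ω ∧ f ∈ U ∧ touch A f ∧ touch B g ∧
    Relation.ReflTransGen (fun a b => b ∈ ω ∧ b ∈ U ∧ adjF a b) f g

/-- a black arm (path of faces of `ω`) from distance `≤ r` to distance `≥ R` of the point `x` -/
def Arm (x : ℂ) (r R : ℝ) (ω : Finset Fc) : Prop :=
  ∃ f g, f ∈ ω ∧ ‖ctr f - x‖ ≤ r ∧ R ≤ ‖ctr g - x‖ ∧
    Relation.ReflTransGen (fun a b => b ∈ ω ∧ adjF a b) f g

end Pool.Agent.H7.UC
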