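import Pool.Agent.H7.UC.Bulk2

set_option autoImplicit false
open Pool.Agent.H75.Perc

/-! # `D5` from one annulus -/

namespace Pool.Agent.H7.UC

/-- one annulus -/
def D5r : Prop := ∃ L ≥ (2 : ℝ), ∃ q < (1 : ℝ), ∃ r0 ≥ (1 : ℝ), ∀ (E : Finset Fc) (x : ℂ) (r : ℝ),
  r0 ≤ r → Pr E (Arm x r (L * r)) ≤ q

/-- the faces of an annulus (a bit enlarged) -/
noncomputable def ann (E : Finset Fc) (x : ℂ) (r R : ℝ) : Finset Fc := by
  classical exact E.filter (fun f => r - 1 < ‖ctr f - x‖ ∧ ‖ctr f - x‖ < R + 1)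

theorem mem_ann {E : Finset Fc} {x : ℂ} {r R : ℝ} {f : Fc} :
    f ∈ ann E x r R ↔ f ∈ E ∧ r - 1 < ‖ctr f - x‖ ∧ ‖ctr f - x‖ < R + 1 := by
  classical
  unfold ann
  rw [Finset.mem_filter]

theorem Arm_mono {x : ℂ} {r R : ℝ} {ω ω' : Finset Fc} (h : ω ⊆ ω') (ha : Arm x r R ω) :
    Arm x r R ω' := by
  obtain ⟨f, g, h1, h2, h3, h4⟩ := ha
  refine ⟨f, g, h h1, h2, h3, ?_⟩
  refine Relation.ReflTransGen.mono ?_ _ _ h4
  rintro a b ⟨hb, hab⟩
  exact ⟨h hb, hab⟩

theorem Arm_weak {x : ℂ} {r R r' R' : ℝ} {ω : Finset Fc} (hr : r ≤ r') (hR : R' ≤ R)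
    (ha : Arm x r R ω) : Arm x r' R' ω := by
  obtain ⟨f, g, h1, h2, h3, h4⟩ := ha
  exact ⟨f, g, h1, le_trans h2 hr, le_trans hR h3, h4⟩

theorem adjF_dist {f g : Fc} (h : adjF f g) : ‖ctr f - ctr g‖ ≤ 1 := by
  obtain ⟨e, ⟨rfl, rfl⟩ | ⟨rfl, rfl⟩⟩ := h <;> exact ctr_fc_sub _ _ _

theorem adjF_dist' {f g : Fc} (h : adjF f g) (x : ℂ) :
    ‖ctr f - x‖ ≤ ‖ctr g - x‖ + 1 ∧ ‖ctr g - x‖ ≤ ‖ctr f - x‖ + 1 := by
  have h1 := adjF_dist h
  constructor
  · have : ctr f - x = (ctr f - ctr g) + (ctr g - x) := by ring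
    rw [this]
    refine le_trans (norm_add_le _ _) ?_
    linarith
  · have : ctr g - x = (ctr f - x) - (ctr f - ctr g) := by ring
    rw [this]
    refine le_trans (norm_sub_le _ _) ?_
    linarith

/-- localisation of the arm to the annulus -/
theorem Arm_loc {E : Finset Fc} {x : ℂ} {r R : ℝ} (hrR : r < R) {ω : Finset Fc} (hω : ω ⊆ E)
    (ha : Arm x r R ω) : Arm x r R (ω ∩ ann E x r R) := by
  classical
  obtain ⟨f, g, h1, h2, h3, h4⟩ := ha
  have key : g ∈ ω ∧ (Arm x r R (ω ∩ ann E x r R) ∨ ‖ctr g - x‖ ≤ r ∨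
      ∃ f', f' ∈ ω ∩ ann E x r R ∧ ‖ctr f' - x‖ ≤ r ∧ g ∈ ω ∩ ann E x r R ∧
        Relation.ReflTransGen (fun a b => b ∈ ω ∩ ann E x r R ∧ adjF a b) f' g) := by
    clear h3
    induction h4 with
    | refl => exact ⟨h1, Or.inr (Or.inl h2)⟩
    | @tail b c _ hbc ih =>
      obtain ⟨hc, hadj⟩ := hbc
      obtain ⟨hb, ih⟩ := ih
      refine ⟨hc, ?_⟩
      obtain ⟨d1, d2⟩ := adjF_dist' hadj x
      rcases ih with ih | ih | ⟨f', hf', hf'r, hbm, hpath⟩
      · exact Or.inl ih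
      · by_cases hcr : ‖ctr c - x‖ ≤ r
        · exact Or.inr (Or.inl hcr)
        · push Not at hcr
          right; right
          have hb' : b ∈ ω ∩ ann E x r R :=
            Finset.mem_inter.2 ⟨hb, mem_ann.2 ⟨hω hb, by linarith, by linarith⟩⟩
          have hc' : c ∈ ω ∩ ann E x r R :=
            Finset.mem_inter.2 ⟨hc, mem_ann.2 ⟨hω hc, by linarith, by linarith⟩⟩
          exact ⟨b, hb', ih, hc', Relation.ReflTransGen.single ⟨hc', hadj⟩⟩
      · by_cases hcr : ‖ctr c - x‖ ≤ r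
        · exact Or.inr (Or.inl hcr)
        · push Not at hcr
          by_cases hcR : ‖ctr c - x‖ < R + 1
          · right; right
            have hc' : c ∈ ω ∩ ann E x r R :=
              Finset.mem_inter.2 ⟨hc, mem_ann.2 ⟨hω hc, by linarith, hcR⟩⟩
            exact ⟨f', hf', hf'r, hc', hpath.tail ⟨hc', hadj⟩⟩
          · push Not at hcR
            left
            exact ⟨f', b, hf', hf'r, by linarith, hpath⟩
  rcases key.2 with h | h | ⟨f', hf', hf'r, hg, hpath⟩
  · exact h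
  · linarith
  · exact ⟨f', g, hf', hf'r, h3, hpath⟩

theorem arm_pow {L q r0 : ℝ} (hL : 2 ≤ L) (hr0 : 1 ≤ r0)
    (h : ∀ (E : Finset Fc) (x : ℂ) (r : ℝ), r0 ≤ r → Pr E (Arm x r (L * r)) ≤ q) (n : ℕ) :
    ∀ (E : Finset Fc) (x : ℂ) (r : ℝ), r0 ≤ r → Pr E (Arm x r ((L + 2) ^ n * r)) ≤ q ^ n := by
  have hq : 0 ≤ q := le_trans (Pr_nonneg _ _) (h ∅ 0 r0 le_rfl)
  induction n with
  | zero =>
    intro E x r _
    rw [pow_zero]
    exact Pr_le_one _ _
  | succ n ih =>
    intro E x r hr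
    have hr1 : 1 ≤ r := le_trans hr0 hr
    set r' := L * r + 2 with hr'
    have hr'0 : r0 ≤ r' := by nlinarith
    set R' := (L + 2) ^ n * r' with hR'
    have hpow : 1 ≤ (L + 2) ^ n := one_le_pow₀ (by linarith)
    have hR'le : R' ≤ (L + 2) ^ (n + 1) * r := by
      rw [hR', pow_succ, mul_assoc]
      apply mul_le_mul_of_nonneg_left _ (by linarith)
      nlinarith
    have hr'R' : r' ≤ R' := by
      rw [hR']
      nlinarith
    have hLr : L * r ≤ (L + 2) ^ (n + 1) * r := by linarith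
    have hd : Disjoint (ann E x r (L * r)) (ann E x r' R') := by
      rw [Finset.disjoint_left]
      intro f h1 h2
      rw [mem_ann] at h1 h2
      linarith [h1.2.2, h2.2.1]
    have hs1 : ann E x r (L * r) ⊆ E := fun f hf => (mem_ann.1 hf).1
    have hs2 : ann E x r' R' ⊆ E := fun f hf => (mem_ann.1 hf).1
    rcases eq_or_lt_of_le hr'R' with heq | hlt
    · -- trivial scale
      have hn : (L + 2) ^ n = 1 := by
        have h0 : (L + 2) ^ n * r' = 1 * r' := by rw [one_mul]; exact heq.symm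
        exact mul_right_cancel₀ (by nlinarith) h0
      have hn0 : n = 0 := by
        by_contra hne
        have : 1 < (L + 2) ^ n := one_lt_pow₀ (by linarith) hne
        linarith
      subst hn0
      rw [zero_add, pow_one, pow_one]
      refine le_trans (Pr_mono fun ω _ ha => ?_) (h E x r hr)
      exact Arm_weak le_rfl (by linarith) ha
    · have hstep : Pr E (Arm x r ((L + 2) ^ (n + 1) * r)) ≤
          Pr E (fun ω => Arm x r (L * r) (ω ∩ ann E x r (L * r)) ∧
            Arm x r' R' (ω ∩ ann E x r' R')) := by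
        refine Pr_mono fun ω hω ha => ⟨?_, ?_⟩
        · exact Arm_loc (by nlinarith) hω (Arm_weak le_rfl hLr ha)
        · exact Arm_loc hlt hω (Arm_weak (by nlinarith) hR'le ha)
      refine le_trans hstep ?_
      rw [Pr_indep hs1 hs2 hd (Arm x r (L * r)) (Arm x r' R'), pow_succ, mul_comm (q ^ n)]
      exact mul_le_mul (h _ _ _ hr) (ih _ _ _ hr'0) (Pr_nonneg _ _) hq

theorem d5_of_ring (h : D5r) : D5 := by
  obtain ⟨L, hL, q0, hq0, r0, hr0, h⟩ := h
  -- make `q` positive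
  set q := max q0 (1 / 2) with hq
  have hq1 : q < 1 := max_lt hq0 (by norm_num)
  have hqh : 1 / 2 ≤ q := le_max_right _ _
  have hqp : 0 < q := by linarith
  have h' : ∀ (E : Finset Fc) (x : ℂ) (r : ℝ), r0 ≤ r → Pr E (Arm x r (L * r)) ≤ q :=
    fun E x r hr => le_trans (h E x r hr) (le_max_left _ _)
  set Λ := L + 2 with hΛ
  have hΛ1 : 1 < Λ := by linarith
  have hlogΛ : 0 < Real.log Λ := Real.log_pos hΛ1
  have hlogq : Real.log q < 0 := Real.log_neg hqp hq1
  set a := - Real.log q / Real.log Λ with ha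
  have ha0 : 0 < a := div_pos (by linarith) hlogΛ
  refine ⟨q⁻¹ * r0 ^ a, a, ha0, ?_⟩
  intro E x r R hr hrR
  have hr0p : 0 < r0 := by linarith
  have hrp : 0 < r := by linarith
  have hRp : 0 < R := by linarith
  -- the bound in the form `q⁻¹ * (r0 * r / R) ^ a`
  have hform : q⁻¹ * r0 ^ a * (r / R) ^ a = q⁻¹ * (r0 * r / R) ^ a := by
    rw [mul_div_assoc, Real.mul_rpow hr0p.le (by positivity), mul_assoc]
  rw [hform]
  have hqi : 1 ≤ q⁻¹ := (one_le_inv₀ hqp).2 hq1.le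
  by_cases hsmall : R ≤ r0 * r
  · have h1 : 1 ≤ r0 * r / R := (one_le_div hRp).2 hsmall
    have h2 : 1 ≤ (r0 * r / R) ^ a := Real.one_le_rpow h1 ha0.le
    refine le_trans (Pr_le_one _ _) ?_
    nlinarith
  · push Not at hsmall
    have hr0r : 0 < r0 * r := by positivity
    set t := Real.log (R / (r0 * r)) / Real.log Λ with ht
    have hRr : 1 < R / (r0 * r) := (one_lt_div hr0r).2 hsmall
    have ht0 : 0 ≤ t := div_nonneg (Real.log_pos hRr).le hlogΛ.le
    set n := ⌊t⌋₊ with hn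
    have hnt : (n : ℝ) ≤ t := Nat.floor_le ht0
    have hnt' : t < n + 1 := Nat.lt_floor_add_one _
    have hΛn : Λ ^ n * (r0 * r) ≤ R := by
      rw [← le_div_iff₀ hr0r]
      have : (Λ ^ n : ℝ) = Real.exp (n * Real.log Λ) := by
        rw [← Real.rpow_natCast, Real.rpow_def_of_pos (by linarith)]
        ring_nf
      rw [this]
      have h2 : (n : ℝ) * Real.log Λ ≤ Real.log (R / (r0 * r)) := by
        have := mul_le_mul_of_nonneg_right hnt hlogΛ.le
        rwa [ht, div_mul_cancel₀ _ hlogΛ.ne'] at this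
      calc Real.exp (n * Real.log Λ) ≤ Real.exp (Real.log (R / (r0 * r))) := Real.exp_le_exp.2 h2
        _ = _ := Real.exp_log (by linarith)
    have h3 : Pr E (Arm x r R) ≤ q ^ n := by
      refine le_trans (Pr_mono fun ω _ hω => ?_) (arm_pow hL hr0 h' n E x (r0 * r) (by nlinarith))
      exact Arm_weak (by nlinarith) hΛn hω
    refine le_trans h3 ?_
    have h4 : (q ^ n : ℝ) = Real.exp (n * Real.log q) := by
      rw [← Real.rpow_natCast, Real.rpow_def_of_pos hqp]
      ring_nf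
    have h5 : q⁻¹ * (r0 * r / R) ^ a = Real.exp ((t - 1) * Real.log q) := by
      rw [Real.rpow_def_of_pos (by positivity)]
      have h6 : q⁻¹ = Real.exp (- Real.log q) := by
        rw [Real.exp_neg, Real.exp_log hqp]
      rw [h6, ← Real.exp_add]
      congr 1
      have h7 : Real.log (r0 * r / R) = - Real.log (R / (r0 * r)) := by
        rw [← Real.log_inv, inv_div]
      rw [h7, ha, ht]
      field_simp
      ring
    rw [h4, h5]
    apply Real.exp_le_exp.2
    nlinarith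

end Pool.Agent.H7.UC
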