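import Pool.Agent.H7.UC.Iface

set_option autoImplicit false

/-! Local exactness: a chain which is closed at the inner vertices of a parallelogram of faces is the
boundary of a set of faces there. -/

namespace Pool.Agent.H7.UC

/-- inner vertices of a set of faces -/
def inn (P : Finset Fc) (w : Vx) : Prop := ∀ k, fc w k ∈ P

/-- local exactness -/
def LE (P : Finset Fc) : Prop := ∀ x : Ed → ZMod 2, (∀ w, inn P w → dv x w = 0) →
  ∃ s : Set Fc, ∀ v k, fc v (k + 1) ∈ P → fc v (k + 2) ∈ P → bd s (ed v k) = x (ed v k)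

/-- parallelogram -/
noncomputable def par (i j : ℤ) (m : ℕ) : Finset Fc := (Finset.Icc i (i + m)) ×ˢ (Finset.Icc j (j + m))

theorem mem_par {i j : ℤ} {m : ℕ} {f : Fc} :
    f ∈ par i j m ↔ (i ≤ f.1 ∧ f.1 ≤ i + m) ∧ (j ≤ f.2 ∧ f.2 ≤ j + m) := by
  simp [par]

theorem z2_cases (a : ZMod 2) : a = 0 ∨ a = 1 := by
  revert a; decide

theorem z2_add_self (a : ZMod 2) : a + a = 0 := by
  revert a; decide

theorem ind_eq {α : Type*} (s : Set α) (a : α) [Decidable (a ∈ s)] :
    ind s a = if a ∈ s then 1 else 0 := by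
  unfold ind
  by_cases h : a ∈ s <;> simp [h]

theorem ind_mem {α : Type*} {s : Set α} {a : α} (h : a ∈ s) : ind s a = 1 := by
  classical
  rw [ind_eq, if_pos h]

theorem ind_not_mem {α : Type*} {s : Set α} {a : α} (h : a ∉ s) : ind s a = 0 := by
  classical
  rw [ind_eq, if_neg h]

/-- the set with a given indicator -/
theorem ind_set {α : Type*} (h : α → ZMod 2) (a : α) : ind {b | h b = 1} a = h a := by
  classical
  rw [ind_eq]
  rcases z2_cases (h a) with h0 | h0
  · rw [if_neg (by simp [h0])]
    exact h0.symm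
  · rw [if_pos (by simpa using h0)]
    exact h0.symm

theorem bd_ed (s : Set Fc) (v : Vx) (k : Fin 3) :
    bd s (ed v k) = ind s (fc v (k + 1)) + ind s (fc v (k + 2)) := by
  unfold bd
  rcases faces_ed v k with ⟨_, h1, h2⟩ | ⟨_, h1, h2⟩ <;> rw [h1, h2]
  exact add_comm _ _

theorem LE_par (i j : ℤ) (m : ℕ) : LE (par i j m) := by
  intro x hx
  -- closedness
  have hu : ∀ a b : ℤ, i ≤ a → a + 1 ≤ i + m → j ≤ b → b + 1 ≤ j + m →
      x (a, b, 0) + x (a, b, 1) + x (a, b, 2) = 0 := by
    intro a b h1 h2 h3 h4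
    have := hx (a, b, false) (by
      intro k
      rw [mem_par]
      fin_cases k <;> simp [fc] <;> omega)
    simpa [dv, ed] using this
  have hd : ∀ a b : ℤ, i ≤ a → a + 1 ≤ i + m → j ≤ b → b + 1 ≤ j + m →
      x (a, b + 1, 0) + x (a, b, 1) + x (a + 1, b, 2) = 0 := by
    intro a b h1 h2 h3 h4
    have := hx (a, b, true) (by
      intro k
      rw [mem_par]
      fin_cases k <;> simp [fc] <;> omega)
    simpa [dv, ed] using this
  -- the potential
  let h : Fc → ZMod 2 := fun f =>
    (∑ t ∈ Finset.range (f.2 - j).toNat, x (i, j + t, 2)) +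
    ∑ t ∈ Finset.range (f.1 - i).toNat, x (i + t, f.2, 0)
  have hH : ∀ a b : ℤ, i ≤ a → h (a, b) + h (a + 1, b) = x (a, b, 0) := by
    intro a b h1
    have e : (a + 1 - i).toNat = (a - i).toNat + 1 := by omega
    simp only [h, e, Finset.sum_range_succ]
    have e2 : i + ((a - i).toNat : ℤ) = a := by omega
    rw [e2]
    generalize (∑ t ∈ Finset.range (b - j).toNat, x (i, j + t, 2)) = p
    generalize (∑ t ∈ Finset.range (a - i).toNat, x (i + t, b, 0)) = q
    generalize x (a, b, 0) = r
    have := z2_add_self p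
    have := z2_add_self q
    calc p + q + (p + (q + r)) = (p + p) + (q + q) + r := by ring
      _ = r := by rw [z2_add_self, z2_add_self]; ring
  have hV0 : ∀ b : ℤ, j ≤ b → h (i, b) + h (i, b + 1) = x (i, b, 2) := by
    intro b h1
    have e : (b + 1 - j).toNat = (b - j).toNat + 1 := by omega
    simp only [h, e, Finset.sum_range_succ, sub_self, Int.toNat_zero, Finset.range_zero,
      Finset.sum_empty]
    have e2 : j + ((b - j).toNat : ℤ) = b := by omega
    rw [e2]
    generalize (∑ t ∈ Finset.range (b - j).toNat, x (i, j + t, 2)) = p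
    generalize x (i, b, 2) = r
    calc p + 0 + (p + r + 0) = (p + p) + r := by ring
      _ = r := by rw [z2_add_self]; ring
  have hV : ∀ n : ℕ, ∀ b : ℤ, (n : ℤ) ≤ m → j ≤ b → b + 1 ≤ j + m →
      h (i + n, b) + h (i + n, b + 1) = x (i + n, b, 2) := by
    intro n
    induction n with
    | zero =>
      intro b _ h1 _
      simpa using hV0 b h1
    | succ n ih =>
      intro b hn h1 h2
      have h3 := ih b (by push_cast at hn; omega) h1 h2
      have h4 := hH (i + n) b (by omega)
      have h5 := hH (i + n) (b + 1) (by omega)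
      have h6 := hu (i + n) b (by omega) (by push_cast at hn; omega) h1 h2
      have h7 := hd (i + n) b (by omega) (by push_cast at hn; omega) h1 h2
      have e : i + ((n + 1 : ℕ) : ℤ) = i + n + 1 := by push_cast; ring
      rw [e]
      generalize h (i + n + 1, b) = p1 at *
      generalize h (i + n + 1, b + 1) = p2 at *
      generalize h (i + n, b) = p3 at *
      generalize h (i + n, b + 1) = p4 at *
      generalize x (i + n, b, 2) = y1 at *
      generalize x (i + n + 1, b, 2) = y2 at *
      generalize x (i + n, b, 0) = y3 at *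
      generalize x (i + n, b + 1, 0) = y4 at *
      generalize x (i + n, b, 1) = y5 at *
      revert p1 p2 p3 p4 y1 y2 y3 y4 y5
      decide
  have hV' : ∀ a b : ℤ, i ≤ a → a ≤ i + m → j ≤ b → b + 1 ≤ j + m →
      h (a, b) + h (a, b + 1) = x (a, b, 2) := by
    intro a b h1 h2 h3 h4
    have := hV (a - i).toNat b (by omega) h3 h4
    have e2 : i + ((a - i).toNat : ℤ) = a := by omega
    rwa [e2] at this
  refine ⟨{f | h f = 1}, ?_⟩
  intro v k h1 h2
  rw [bd_ed, ind_set, ind_set]
  have key : ∀ a b : ℤ, ∀ k : Fin 3, fc (a, b, false) (k + 1) ∈ par i j m →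
      fc (a, b, false) (k + 2) ∈ par i j m →
      h (fc (a, b, false) (k + 1)) + h (fc (a, b, false) (k + 2)) = x (a, b, k) := by
    intro a b k h1 h2
    rw [mem_par] at h1 h2
    fin_cases k
    · simp [fc] at h1 h2 ⊢
      exact hH a b (by omega)
    · simp [fc] at h1 h2 ⊢
      have g1 := hH a b (by omega)
      have g2 := hV' a b (by omega) (by omega) (by omega) (by omega)
      have g3 := hu a b (by omega) (by omega) (by omega) (by omega)
      generalize h (a + 1, b) = p1 at *
      generalize h (a, b + 1) = p2 at *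
      generalize h (a, b) = p3 at *
      generalize x (a, b, 0) = y1 at *
      generalize x (a, b, 1) = y2 at *
      generalize x (a, b, 2) = y3 at *
      revert p1 p2 p3 y1 y2 y3
      decide
    · simp [fc] at h1 h2 ⊢
      rw [add_comm]
      exact hV' a b (by omega) (by omega) (by omega) (by omega)
  obtain ⟨a, b, c⟩ := v
  cases c
  · have := key a b k h1 h2
    simpa [ed] using this
  · have e : ed (a, b, true) k = ed (nb (a, b, true) k) k := (ed_nb _ _).symm
    have e1 := fc_nb1 (a, b, true) k
    have e2 := fc_nb2 (a, b, true) k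
    rw [e, add_comm, ← e1, ← e2]
    rw [← e1] at h2
    rw [← e2] at h1
    have e3 : ∃ a' b', nb (a, b, true) k = (a', b', false) := by
      fin_cases k <;> simp [nb]
    obtain ⟨a', b', e3⟩ := e3
    rw [e3] at h1 h2 ⊢
    have := key a' b' k h2 h1
    simpa [ed] using this

end Pool.Agent.H7.UC
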