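import Pool.Agent.H7.UC.Defs

set_option autoImplicit false
open Pool.Agent.H75.Perc

/-! Closed statements of the modules of UC (uniform Cardy on the triangular lattice). -/

namespace Pool.Agent.H7.UC

/-- D1: every cycle supported on the edges of `U` is the boundary of a set of faces of `U`. -/
def D1 : Prop := ∀ U : Finset Fc, IsDom U → ∀ x : Ed → ZMod 2, (∀ e, x e ≠ 0 → inE U e) →
  (∀ v, dv x v = 0) → ∃ s : Finset Fc, s ⊆ U ∧ ∀ e, x e = bd ↑s e

/-- D1b: the boundary edges form one cycle. -/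
def D1b : Prop := ∀ U : Finset Fc, IsDom U → ∀ x : Ed → ZMod 2, (∀ e, x e ≠ 0 → isB U e) →
  (∀ v, dv x v = 0) → (∀ e, x e = 0) ∨ (∀ e, isB U e → x e = 1)

/-- D1c: reference chains exist, and the probabilities do not depend on them. -/
def D1c : Prop := ∀ (U : Finset Fc) (M : Marks U 3), IsDom U → ∀ v, inV U v →
  (∃ c, IsRef M v c) ∧ ∀ c c', IsRef M v c → IsRef M v c' → ∀ k j, X M c v k j = X M c' v k j

/-- D2 (planarity): `C` consists of boundary edges, `P` has the same end points as `C`; a connected set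
of vertices without edges of `P` cannot join a boundary edge of `C` to a boundary edge outside `C`. -/
def D2 : Prop := ∀ U : Finset Fc, IsDom U → ∀ C P : Ed → ZMod 2, (∀ e, C e ≠ 0 → isB U e) →
  (∀ e, P e ≠ 0 → inE U e) → (∀ v, dv C v = dv P v) → ∀ S : Set Vx, (∀ v ∈ S, ∀ k, P (ed v k) = 0) →
  ∀ o1 ∈ S, ∀ o2 ∈ S,
  Relation.ReflTransGen (fun a b => b ∈ S ∧ ∃ k, b = nb a k ∧ inE U (ed a k)) o1 o2 →
  ∀ k1 k2, isB U (ed o1 k1) → isB U (ed o2 k2) → C (ed o1 k1) = C (ed o2 k2)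

/-- D3a: the probability belongs to the edge, not to its end. -/
def D3a : Prop := ∀ (U : Finset Fc) (M : Marks U 3), IsDom U → ∀ v k, inE U (ed v k) →
  ∀ c c', IsRef M v c → IsRef M (nb v k) c' → ∀ j, X M c v k j = X M c' (nb v k) k j

/-- D3b: the vertex identity `∑_k τ^k F(z_k) = 0`, at every vertex with all three edges in `U`. -/
def D3b : Prop := ∀ (U : Finset Fc) (M : Marks U 3), IsDom U → ∀ v, (∀ k, inE U (ed v k)) →
  (∀ j, v ≠ M.u j) → ∀ c, IsRef M v c → ∑ k : Fin 3, tau ^ (k : ℕ) * obs M c v k = 0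

/-- D3c: the probabilities add up to one. -/
def D3c : Prop := ∀ (U : Finset Fc) (M : Marks U 3), IsDom U → ∀ v k, inE U (ed v k) →
  (∀ j, v ≠ M.u j ∧ nb v k ≠ M.u j) → ∀ c, IsRef M v c → ∑ j : Fin 3, X M c v k j = 1

/-- D3p (pointwise form of D3c): every strand ends at exactly one mark. -/
def D3p : Prop := ∀ (U : Finset Fc) (M : Marks U 3), IsDom U → ∀ v k, inE U (ed v k) →
  (∀ j, v ≠ M.u j ∧ nb v k ≠ M.u j) → ∀ x, IsRef M v x →
  ∃ j, SConn x v k (M.u j) ∧ ∀ i, SConn x v k (M.u i) → i = j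

/-- D4a: on the boundary arc `C j` the middle of the edge is not connected to the mark `j+2`. -/
def D4a : Prop := ∀ (U : Finset Fc) (M : Marks U 3), IsDom U → ∀ v k j, ed v k ∈ M.C j →
  (∀ l, v ≠ M.u l ∧ nb v k ≠ M.u l) → ∀ c, IsRef M v c → X M c v k (j + 2) = 0

/-- D4b: four marks; `w = u 1` is on the arc from `u 0` to `u 2` of the three marks `0,2,3`.
With `M3` the three marks `u 0, u 2, u 3` (arcs `C 0 ∪ C 1`, `C 2`, `C 3`) the probability that `w` is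
connected to the second mark `u 2` is the probability of a black crossing from `C 0` to `C 2`. -/
def D4b : Prop := ∀ (U : Finset Fc) (M : Marks U 4) (M3 : Marks U 3), IsDom U →
  M3.u 0 = M.u 0 → M3.u 1 = M.u 2 → M3.u 2 = M.u 3 →
  ∀ c, IsRef M3 (M.u 1) c → ∀ k, isB U (ed (M.u 1) k) →
  X M3 c (M.u 1) k 1 = Pr U (Cross U (M.C 0) (M.C 2))

/-- D5 (RSW): one-arm bound, scale invariant. `E` = any finite set of faces. -/
def D5 : Prop := ∃ C a : ℝ, 0 < a ∧ ∀ (E : Finset Fc) (x : ℂ) (r R : ℝ), 1 ≤ r → r ≤ R →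
  Pr E (Arm x r R) ≤ C * (r / R) ^ a

/-- `S` is connected in the graph of `U` -/
def ConnSet (U : Finset Fc) (S : Set Vx) : Prop := (∀ v ∈ S, inV U v) ∧ ∀ a ∈ S, ∀ b ∈ S,
  Relation.ReflTransGen (fun a b => b ∈ S ∧ ∃ k, b = nb a k ∧ inE U (ed a k)) a b

/-- the component of `z0` in the graph of `U` after the vertices of `T` are removed -/
def Out (U : Finset Fc) (T : Set Vx) (z0 : Vx) : Set Vx := {v | v ∉ T ∧
  Relation.ReflTransGen (fun a b => b ∉ T ∧ inV U b ∧ ∃ k, b = nb a k ∧ inE U (ed a k)) z0 v}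

/-- D6a (regularity, near the boundary): `S` connected, contains a boundary vertex, lies in
`B(x, r)`; `v`, `v'` are in `S` or separated from `z0` by `S`; no connected set between `S` and
`B(x, R)` hides a mark from `z0`. -/
def D6a : Prop := ∀ (U : Finset Fc) (M : Marks U 3), IsDom U → ∀ (x : ℂ) (r R : ℝ), 1 ≤ r →
  r + 10 ≤ R → ∀ (S : Set Vx) (z0 : Vx), inV U z0 → ConnSet U S → (∀ v ∈ S, ‖pv v - x‖ ≤ r) →
  (∃ v ∈ S, ∃ k, isB U (ed v k)) →
  (∀ T : Set Vx, S ⊆ T → ConnSet U T → (∀ v ∈ T, ‖pv v - x‖ ≤ R) → z0 ∉ T ∧ ∀ j, M.u j ∈ Out U T z0) →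
  ∀ v v' k k', inE U (ed v k) → inE U (ed v' k') → v ∉ Out U S z0 → nb v k ∉ Out U S z0 →
  v' ∉ Out U S z0 → nb v' k' ∉ Out U S z0 → ∀ c c', IsRef M v c → IsRef M v' c' → ∀ j,
  |X M c v k j - X M c' v' k' j| ≤ Pr U (Arm x (r + 2) (R - 2))

/-- a black path from a face touching `S` to a face touching a vertex outside `W` -/
def ArmS (S W : Set Vx) (ω : Finset Fc) : Prop :=
  ∃ f g, f ∈ ω ∧ (∃ v ∈ S, ∃ k, fc v k = f) ∧ (∃ w, w ∉ W ∧ ∃ k, fc w k = g) ∧
    Relation.ReflTransGen (fun a b => b ∈ ω ∧ adjF a b) f g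

/-- D6c (regularity near the boundary, general form; `D6a` and its inverted form follow): no connected
set between `S` and `W` hides a mark from `z0`. -/
def D6c : Prop := ∀ (U : Finset Fc) (M : Marks U 3), IsDom U → ∀ (S W : Set Vx) (z0 : Vx),
  inV U z0 → S ⊆ W → ConnSet U S → (∃ v ∈ S, ∃ k, isB U (ed v k)) →
  (∀ T : Set Vx, S ⊆ T → T ⊆ W → ConnSet U T → z0 ∉ T ∧ ∀ j, M.u j ∈ Out U T z0) →
  ∀ v v' k k', inE U (ed v k) → inE U (ed v' k') → v ∉ Out U S z0 → nb v k ∉ Out U S z0 →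
  v' ∉ Out U S z0 → nb v' k' ∉ Out U S z0 → ∀ c c', IsRef M v c → IsRef M v' c' → ∀ j,
  |X M c v k j - X M c' v' k' j| ≤ Pr U (ArmS S W)

/-- D6b (regularity, bulk): all faces near `B(x, R)` are in `U`. -/
def D6b : Prop := ∀ (U : Finset Fc) (M : Marks U 3), IsDom U → ∀ (x : ℂ) (r R : ℝ), 1 ≤ r →
  4 * (r + 10) ≤ R → (∀ f : Fc, ‖ctr f - x‖ ≤ R + 2 → f ∈ U) →
  ∀ v v' k k', ‖pv v - x‖ ≤ r → ‖pv (nb v k) - x‖ ≤ r → ‖pv v' - x‖ ≤ r → ‖pv (nb v' k') - x‖ ≤ r →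
  ∀ c c', IsRef M v c → IsRef M v' c' → ∀ j,
  |X M c v k j - X M c' v' k' j| ≤ Pr U (Arm x (3 * r + 6) (R / 4))

end Pool.Agent.H7.UC
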