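import Pool.Agent.H7.UC.Bulk

set_option autoImplicit false
open Pool.Agent.H75.Perc

/-! # `D6b` from `D3p`, `D1c` -/

namespace Pool.Agent.H7.UC

/-! ### geometry of the centres -/

theorem om_re : om.re = 1 / 2 := by
  have h : om = Complex.exp (((Real.pi / 3 : ℝ) : ℂ) * Complex.I) := by
    unfold om; congr 1; push_cast; ring
  rw [h, Complex.exp_ofReal_mul_I_re, Real.cos_pi_div_three]

theorem om_im : om.im = Real.sqrt 3 / 2 := by
  have h : om = Complex.exp (((Real.pi / 3 : ℝ) : ℂ) * Complex.I) := by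
    unfold om; congr 1; push_cast; ring
  rw [h, Complex.exp_ofReal_mul_I_im, Real.sin_pi_div_three]

/-- lattice coordinates -/
noncomputable def cy (x : ℂ) : ℝ := x.im / (Real.sqrt 3 / 2)
noncomputable def cx (x : ℂ) : ℝ := x.re - cy x / 2

theorem normSq_lat (u v : ℝ) : ‖(u : ℂ) + (v : ℂ) * om‖ ^ 2 = u ^ 2 + u * v + v ^ 2 := by
  rw [← Complex.normSq_eq_norm_sq, Complex.normSq_apply]
  simp only [Complex.add_re, Complex.add_im, Complex.mul_re, Complex.mul_im, Complex.ofReal_re,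
    Complex.ofReal_im, om_re, om_im]
  have h3 : Real.sqrt 3 * Real.sqrt 3 = 3 := Real.mul_self_sqrt (by norm_num)
  nlinarith [h3]

theorem lat_coord (x : ℂ) : x = (cx x : ℂ) + (cy x : ℂ) * om := by
  have h3 : (Real.sqrt 3 / 2) ≠ 0 := by positivity
  apply Complex.ext
  · simp only [Complex.add_re, Complex.mul_re, Complex.ofReal_re, Complex.ofReal_im, om_re, om_im]
    unfold cx; ring
  · simp only [Complex.add_im, Complex.mul_im, Complex.ofReal_re, Complex.ofReal_im, om_re, om_im]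
    unfold cy
    rw [div_mul_cancel₀ _ h3]; ring

theorem norm_ctr_sq (f : Fc) (x : ℂ) : ‖ctr f - x‖ ^ 2 =
    ((f.1 : ℝ) - cx x) ^ 2 + ((f.1 : ℝ) - cx x) * ((f.2 : ℝ) - cy x) + ((f.2 : ℝ) - cy x) ^ 2 := by
  rw [← normSq_lat]
  congr 2
  conv_lhs => rw [lat_coord x]
  unfold ctr
  push_cast
  ring

theorem ctr_le {f : Fc} {x : ℂ} {s : ℝ} (h1 : |(f.1 : ℝ) - cx x| ≤ s)
    (h2 : |(f.2 : ℝ) - cy x| ≤ s) : ‖ctr f - x‖ ≤ 7 / 4 * s := by
  have hs : 0 ≤ s := le_trans (abs_nonneg _) h1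
  have h := norm_ctr_sq f x
  apply abs_le_of_sq_le_sq' _ (by positivity) |>.2
  rw [h]
  rw [abs_le] at h1 h2
  nlinarith [h1.1, h1.2, h2.1, h2.2]

theorem ctr_ge {f : Fc} {x : ℂ} {s : ℝ} (hs : 0 ≤ s) (h1 : s ≤ |(f.1 : ℝ) - cx x| ∨
    s ≤ |(f.2 : ℝ) - cy x|) : 43 / 50 * s ≤ ‖ctr f - x‖ := by
  have h := norm_ctr_sq f x
  refine abs_le_of_sq_le_sq' ?_ (norm_nonneg _) |>.2
  rw [h]
  generalize (f.1 : ℝ) - cx x = a at *
  generalize (f.2 : ℝ) - cy x = b at *
  rcases h1 with h1 | h1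
  · have : s ^ 2 ≤ a ^ 2 := by
      rw [← sq_abs a]; exact pow_le_pow_left₀ hs h1 2
    nlinarith [sq_nonneg (a + 2 * b)]
  · have : s ^ 2 ≤ b ^ 2 := by
      rw [← sq_abs b]; exact pow_le_pow_left₀ hs h1 2
    nlinarith [sq_nonneg (b + 2 * a)]

theorem ctr_fc_sub (v : Vx) (k l : Fin 3) : ‖ctr (fc v k) - ctr (fc v l)‖ ≤ 1 := by
  have key : ∀ f g : Fc, ((f.1 - g.1) ^ 2 + (f.1 - g.1) * (f.2 - g.2) + (f.2 - g.2) ^ 2 : ℤ) ≤ 1 →
      ‖ctr f - ctr g‖ ≤ 1 := by
    intro f g h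
    have h1 : ctr f - ctr g = (((f.1 - g.1 : ℤ) : ℝ) : ℂ) + (((f.2 - g.2 : ℤ) : ℝ) : ℂ) * om := by
      unfold ctr; push_cast; ring
    have h2 := normSq_lat ((f.1 - g.1 : ℤ) : ℝ) ((f.2 - g.2 : ℤ) : ℝ)
    rw [← h1] at h2
    have h3 : ‖ctr f - ctr g‖ ^ 2 ≤ 1 := by
      rw [h2]; exact_mod_cast h
    nlinarith [norm_nonneg (ctr f - ctr g)]
  apply key
  obtain ⟨i, j, b⟩ := v
  fin_cases k <;> fin_cases l <;> cases b <;> simp [fc]

theorem ctr_pv (v : Vx) (k : Fin 3) : ‖ctr (fc v k) - pv v‖ ≤ 1 := by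
  have h : ctr (fc v k) - pv v = ((ctr (fc v k) - ctr (fc v 0)) + (ctr (fc v k) - ctr (fc v 1)) +
      (ctr (fc v k) - ctr (fc v 2))) / 3 := by
    unfold pv; ring
  rw [h, norm_div]
  have h0 := ctr_fc_sub v k 0
  have h1 := ctr_fc_sub v k 1
  have h2 := ctr_fc_sub v k 2
  have h3 : ‖(3 : ℂ)‖ = 3 := by simp
  rw [h3, div_le_iff₀ (by norm_num)]
  refine le_trans (norm_add₃_le) ?_
  linarith

/-! ### parallelograms around a point -/

/-- the parallelogram with half width `h` around `x` -/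
noncomputable def parx (x : ℂ) (h : ℕ) : Finset Fc := par (round (cx x) - h) (round (cy x) - h) (2 * h)

theorem mem_parx {x : ℂ} {h : ℕ} {f : Fc} : f ∈ parx x h ↔
    |f.1 - round (cx x)| ≤ h ∧ |f.2 - round (cy x)| ≤ h := by
  unfold parx
  rw [mem_par, abs_le, abs_le]
  push_cast
  constructor
  · rintro ⟨⟨a, b⟩, c, d⟩
    exact ⟨⟨by linarith, by linarith⟩, by linarith, by linarith⟩
  · rintro ⟨⟨a, b⟩, c, d⟩
    exact ⟨⟨by linarith, by linarith⟩, by linarith, by linarith⟩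

theorem abs_round_sub {a : ℤ} {t : ℝ} {h : ℕ} (h1 : |a - round t| ≤ h) :
    |(a : ℝ) - t| ≤ h + 1 / 2 := by
  have h2 := abs_sub_round t
  have h3 : |((a : ℝ)) - round t| ≤ h := by exact_mod_cast h1
  have h4 : (a : ℝ) - t = (a - round t) + (round t - t) := by ring
  rw [h4]
  refine le_trans (abs_add_le _ _) ?_
  rw [abs_sub_comm (round t : ℝ) t]
  linarith

theorem abs_round_sub' {a : ℤ} {t : ℝ} {h : ℕ} (h1 : ¬ |a - round t| ≤ h) :
    (h : ℝ) + 1 / 2 ≤ |(a : ℝ) - t| := by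
  have h2 := abs_sub_round t
  push Not at h1
  have h0 : (h : ℤ) + 1 ≤ |a - round t| := h1
  have h3 : (h : ℝ) + 1 ≤ |((a : ℝ)) - round t| := by exact_mod_cast h0
  have h4 : (a : ℝ) - round t = (a - t) + (t - round t) := by ring
  rw [h4] at h3
  have := abs_add_le ((a : ℝ) - t) (t - round t)
  linarith

theorem parx_le {x : ℂ} {h : ℕ} {f : Fc} (hf : f ∈ parx x h) :
    ‖ctr f - x‖ ≤ 7 / 4 * (h + 1 / 2) := by
  rw [mem_parx] at hf
  exact ctr_le (abs_round_sub hf.1) (abs_round_sub hf.2)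

theorem parx_ge {x : ℂ} {h : ℕ} {f : Fc} (hf : f ∉ parx x h) :
    43 / 50 * ((h : ℝ) + 1 / 2) ≤ ‖ctr f - x‖ := by
  apply ctr_ge (by positivity)
  by_contra h0
  push Not at h0
  apply hf
  rw [mem_parx]
  constructor
  · by_contra h1
    exact absurd (abs_round_sub' h1) (not_le.2 h0.1)
  · by_contra h1
    exact absurd (abs_round_sub' h1) (not_le.2 h0.2)

/-! ### chains in a parallelogram -/

/-- `v` and `w` are joined by a chain in `V` -/
def Lnk (V : Set Vx) (v w : Vx) : Prop := ∃ γ : Ed → ZMod 2,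
  (∀ a l, γ (ed a l) ≠ 0 → a ∈ V ∧ nb a l ∈ V) ∧ ∀ a, dv γ a = ind {v} a + ind {w} a

theorem Lnk.refl (V : Set Vx) (v : Vx) : Lnk V v v :=
  ⟨fun _ => 0, fun _ _ h => absurd rfl h, fun a => by rw [z2_add_self]; simp [dv]⟩

theorem Lnk.symm {V : Set Vx} {v w : Vx} (h : Lnk V v w) : Lnk V w v := by
  obtain ⟨γ, h1, h2⟩ := h
  exact ⟨γ, h1, fun a => by rw [h2, add_comm]⟩

theorem Lnk.trans {V : Set Vx} {u v w : Vx} (h : Lnk V u v) (h' : Lnk V v w) : Lnk V u w := by
  obtain ⟨γ, h1, h2⟩ := h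
  obtain ⟨γ', h1', h2'⟩ := h'
  refine ⟨fun e => γ e + γ' e, ?_, ?_⟩
  · intro a l h0
    by_cases h3 : γ (ed a l) = 0
    · by_cases h4 : γ' (ed a l) = 0
      · simp [h3, h4] at h0
      · exact h1' a l h4
    · exact h1 a l h3
  · intro a
    have e : dv (fun e => γ e + γ' e) a = dv γ a + dv γ' a := by unfold dv; ring
    rw [e, h2, h2']
    have := z2_add_self (ind {v} a)
    calc _ = ind {u} a + ind {w} a + (ind {v} a + ind {v} a) := by ring
      _ = _ := by rw [this, add_zero]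

theorem Lnk.edge {V : Set Vx} {v : Vx} {k : Fin 3} (h : v ∈ V) (h' : nb v k ∈ V) :
    Lnk V v (nb v k) := by
  classical
  refine ⟨ind {ed v k}, ?_, ?_⟩
  · intro a l h0
    have h1 : ed a l = ed v k := by
      by_contra h2
      exact h0 (ind_not_mem (by simpa using h2))
    rw [ed_eq_iff] at h1
    obtain ⟨rfl, h1 | h1⟩ := h1
    · subst h1; exact ⟨h, h'⟩
    · have : a = nb v l := by rw [h1, nb_nb]
      subst this
      rw [nb_nb]; exact ⟨h', h⟩
  · intro a
    unfold dv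
    simp only [ind_eq, Set.mem_singleton_iff]
    by_cases h1 : a = v
    · subst h1
      have h2 : ¬ a = nb a k := fun h => nb_ne a k h.symm
      have h3 : ∀ l, ed a l = ed a k ↔ l = k := by
        intro l
        rw [ed_eq_iff]
        exact ⟨fun h => h.1, fun h => ⟨h, Or.inl rfl⟩⟩
      simp only [h3, if_pos, h2, if_false, add_zero]
      fin_cases k <;> simp
    · by_cases h2 : a = nb v k
      · subst h2
        have h3 : ∀ l, ed (nb v k) l = ed v k ↔ l = k := by
          intro l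
          rw [ed_eq_iff]
          refine ⟨fun h => h.1, fun h => ⟨h, Or.inr ?_⟩⟩
          rw [h, nb_nb]
        simp only [h3, if_pos, h1, if_false, zero_add]
        fin_cases k <;> simp
      · have h3 : ∀ l, ¬ ed a l = ed v k := by
          intro l h
          rw [ed_eq_iff] at h
          obtain ⟨rfl, h | h⟩ := h
          · exact h1 h.symm
          · exact h2 (by rw [h, nb_nb])
        simp only [h3, h1, h2, if_false, add_zero]

theorem inn_par {i j : ℤ} {m : ℕ} {a b : ℤ} {t : Bool} : inn (par i j m) (a, b, t) ↔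
    (i ≤ a ∧ a + 1 ≤ i + m) ∧ (j ≤ b ∧ b + 1 ≤ j + m) := by
  constructor
  · intro h
    have h0 := h 0
    have h1 := h 1
    have h2 := h 2
    rw [mem_par] at h0 h1 h2
    cases t <;> simp [fc] at h0 h1 h2 ⊢ <;> omega
  · intro h k
    rw [mem_par]
    cases t <;> fin_cases k <;> simp [fc] <;> omega

theorem lnk_par {i j : ℤ} {m : ℕ} : ∀ n : ℕ, ∀ a b : ℤ, ∀ t, inn (par i j m) (a, b, t) →
    (a - i) + (b - j) ≤ n → Lnk {w | inn (par i j m) w} (a, b, t) (i, j, false) := by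
  intro n
  induction n with
  | zero =>
    intro a b t h hn
    have h' := inn_par.1 h
    have ha : a = i := by push_cast at hn; omega
    have hb : b = j := by push_cast at hn; omega
    subst ha hb
    cases t
    · exact Lnk.refl _ _
    · have e : nb (a, b, true) 1 = (a, b, false) := rfl
      rw [← e]
      exact Lnk.edge h (by rw [e]; exact inn_par.2 h')
  | succ n ih =>
    intro a b t h hn
    have h' := inn_par.1 h
    -- it is enough to treat the up vertex
    have up : Lnk {w | inn (par i j m) w} (a, b, false) (i, j, false) := by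
      have hf : inn (par i j m) (a, b, false) := inn_par.2 h'
      by_cases ha : i < a
      · have h2 : inn (par i j m) (a - 1, b, true) := inn_par.2 (by omega)
        have e : nb (a, b, false) 2 = (a - 1, b, true) := rfl
        have h3 := Lnk.edge (V := {w | inn (par i j m) w}) (v := (a, b, false)) (k := 2) hf h2
        rw [e] at h3
        exact h3.trans (ih _ _ _ h2 (by push_cast at hn; omega))
      · by_cases hb : j < b
        · have h2 : inn (par i j m) (a, b - 1, true) := inn_par.2 (by omega)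
          have e : nb (a, b, false) 0 = (a, b - 1, true) := rfl
          have h3 := Lnk.edge (V := {w | inn (par i j m) w}) (v := (a, b, false)) (k := 0) hf h2
          rw [e] at h3
          exact h3.trans (ih _ _ _ h2 (by push_cast at hn; omega))
        · have ha : a = i := by omega
          have hb : b = j := by omega
          subst ha hb
          exact Lnk.refl _ _
    cases t
    · exact up
    · have e : nb (a, b, true) 1 = (a, b, false) := rfl
      refine Lnk.trans ?_ up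
      rw [← e]
      exact Lnk.edge h (by rw [e]; exact inn_par.2 h')

theorem lnk_par' {i j : ℤ} {m : ℕ} {v w : Vx} (hv : inn (par i j m) v) (hw : inn (par i j m) w) :
    Lnk {w | inn (par i j m) w} v w := by
  obtain ⟨a, b, t⟩ := v
  obtain ⟨a', b', t'⟩ := w
  have h := inn_par.1 hv
  have h' := inn_par.1 hw
  exact (lnk_par ((a - i) + (b - j)).toNat a b t hv (by omega)).trans
    (lnk_par ((a' - i) + (b' - j)).toNat a' b' t' hw (by omega)).symm

/-! ### arms -/

theorem adjF_fc (v : Vx) {k l : Fin 3} (h : k ≠ l) : adjF (fc v k) (fc v l) := by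
  have key : ∀ m : Fin 3, adjF (fc v (m + 1)) (fc v (m + 2)) ∧ adjF (fc v (m + 2)) (fc v (m + 1)) := by
    intro m
    rcases faces_ed v m with ⟨_, h1, h2⟩ | ⟨_, h1, h2⟩
    · exact ⟨⟨ed v m, Or.inl ⟨h1, h2⟩⟩, ⟨ed v m, Or.inr ⟨h1, h2⟩⟩⟩
    · exact ⟨⟨ed v m, Or.inr ⟨h1, h2⟩⟩, ⟨ed v m, Or.inl ⟨h1, h2⟩⟩⟩
  have h0 := key 0
  have h1 := key 1
  have h2 := key 2
  fin_cases k <;> fin_cases l <;> first | exact absurd rfl h | skip
  · exact h2.1
  · exact h1.2
  · exact h2.2
  · exact h0.1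
  · exact h1.1
  · exact h0.2

theorem path_of_stp {P : Finset Fc} {A : Set Fc} {w0 w : Vx}
    (h : Relation.ReflTransGen (Stp P A) w0 w) : w = w0 ∨ ∃ k l, fc w0 k ∈ A ∧ fc w l ∈ A ∧
    Relation.ReflTransGen (fun a b => b ∈ A ∧ adjF a b) (fc w0 k) (fc w l) := by
  induction h with
  | refl => exact Or.inl rfl
  | @tail b d _ hbd ih =>
    right
    obtain ⟨_, l, rfl, hl⟩ := hbd
    have hf : ∃ m m', fc b m ∈ A ∧ fc (nb b l) m' = fc b m := by
      rcases hl with hl | hl
      · exact ⟨l + 1, l + 2, hl, fc_nb2 b l⟩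
      · exact ⟨l + 2, l + 1, hl, fc_nb1 b l⟩
    obtain ⟨m, m', hm, hm'⟩ := hf
    rcases ih with rfl | ⟨k, l', h1, h2, h3⟩
    · exact ⟨m, m', hm, by rw [hm']; exact hm, by rw [hm']⟩
    · refine ⟨k, m', h1, by rw [hm']; exact hm, ?_⟩
      rw [hm']
      by_cases h4 : l' = m
      · subst h4; exact h3
      · exact h3.tail ⟨hm, adjF_fc b h4⟩

theorem d6b (h3 : D3p) (h1 : D1c) : D6b := by
  intro U M hU x r R hr hR hin v v' k k' hv hvk hv' hvk' c c' hc hc' j
  -- the two parallelograms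
  set h : ℕ := ⌊R / 2⌋₊ with hh
  set h0 : ℕ := ⌈6 / 5 * r + 2⌉₊ with hh0
  have hR0 : 0 ≤ R / 2 := by linarith
  have hhl : (h : ℝ) ≤ R / 2 := Nat.floor_le hR0
  have hhu : R / 2 < h + 1 := Nat.lt_floor_add_one _
  have h0l : 6 / 5 * r + 2 ≤ h0 := Nat.le_ceil _
  have h0u : (h0 : ℝ) < 6 / 5 * r + 2 + 1 := Nat.ceil_lt_add_one (by positivity)
  have hhh : h0 ≤ h := by
    have : (h0 : ℝ) ≤ h := by linarith
    exact_mod_cast this
  have hPU : parx x h ⊆ U := by
    intro f hf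
    apply hin
    refine le_trans (parx_le hf) ?_
    linarith
  have hLE : LE (parx x h) := LE_par _ _ _
  have hP0P : parx x h0 ⊆ parx x h := by
    intro f hf
    rw [mem_parx] at hf ⊢
    have : (h0 : ℤ) ≤ h := by exact_mod_cast hhh
    exact ⟨le_trans hf.1 this, le_trans hf.2 this⟩
  have near : ∀ w, ‖pv w - x‖ ≤ r → inn (parx x h0) w := by
    intro w hw l
    by_contra h2
    have h3 := parx_ge h2
    have h4 := ctr_pv w l
    have h5 : ‖ctr (fc w l) - x‖ ≤ ‖ctr (fc w l) - pv w‖ + ‖pv w - x‖ := by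
      have : ctr (fc w l) - x = (ctr (fc w l) - pv w) + (pv w - x) := by ring
      rw [this]; exact norm_add_le _ _
    linarith
  let V0 : Set Vx := {w | inn (parx x h0) w}
  obtain ⟨γ, hγs, hγd⟩ : Lnk V0 v v' := lnk_par' (near v hv) (near v' hv')
  refine le_trans (bulk_core h3 h1 M hU hPU hLE (V0 := V0) (near v hv) (near _ hvk) (near v' hv')
    (near _ hvk') (fun w hw l => hP0P (hw l)) hγs hγd hc hc' j) ?_
  refine Pr_mono fun ω _ hω => ?_
  obtain ⟨w0, hw0, w, hw, hpath⟩ := hω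
  rcases path_of_stp hpath with rfl | ⟨a, b, ha, hb, hab⟩
  · exact absurd (fun l => hP0P (hw0 l)) hw
  · refine ⟨fc w0 a, fc w b, ha, ?_, ?_, hab⟩
    · refine le_trans (parx_le (hw0 a)) ?_
      linarith
    · unfold inn at hw
      push Not at hw
      obtain ⟨l, hl⟩ := hw
      have h3 := parx_ge hl
      have h4 := ctr_fc_sub w l b
      have h5 : ‖ctr (fc w l) - x‖ ≤ ‖ctr (fc w l) - ctr (fc w b)‖ + ‖ctr (fc w b) - x‖ := by
        have : ctr (fc w l) - x = (ctr (fc w l) - ctr (fc w b)) + (ctr (fc w b) - x) := by ring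
        rw [this]; exact norm_add_le _ _
      linarith

end Pool.Agent.H7.UC
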