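import Pool.Agent.H7.UC.Iface
import Pool.Agent.H13.Q1.FourG

set_option autoImplicit false
open Pool.Agent.H75.Perc Metric Set Filter Topology

/-! Statements of the analytic modules of UC. -/

namespace Pool.Agent.H7.UC

/-- closed hexagon of the face `f` -/
def cell (f : Fc) : Set ℂ :=
  {z | ∀ k : Fin 3, |((z - ctr f) * (starRingEnd ℂ) (om ^ (k : ℕ))).re| ≤ 1 / 2}

/-- the open domain of `U` -/
def reg (U : Finset Fc) : Set ℂ := interior (⋃ f ∈ U, cell f)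

/-- middle of the edge `ed v k` -/
noncomputable def mid (v : Vx) (k : Fin 3) : ℂ := (ctr (fc v (k + 1)) + ctr (fc v (k + 2))) / 2

/-- `φ` is a conformal map of the unit disc onto `D`, a homeomorphism of the closures -/
structure DiscChart (D : Set ℂ) (φ : ℂ → ℂ) : Prop where
  cont : ContinuousOn φ (closedBall 0 1)
  inj : InjOn φ (closedBall 0 1)
  diff : DifferentiableOn ℂ φ (ball 0 1)
  img : φ '' ball 0 1 = D
  imgc : φ '' closedBall 0 1 = closure D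

/-- cross ratio, in `[0,1]` for four points in cyclic order on the circle -/
noncomputable def crossR (a b c d : ℂ) : ℂ := (b - a) * (d - c) / ((c - a) * (d - b))

/-- Standing assumptions: `U` has inradius at least `R` at `z`, `φ` is its chart with `φ 0 = z`, and
the `n` marks are at distance at least `κ` in the disc.  There is no bound from above on `U`. -/
structure Sit (n : ℕ) [NeZero n] (U : Finset Fc) (M : Marks U n) (z : ℂ) (R κ : ℝ) (φ : ℂ → ℂ)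
    (p : Fin n → ℂ) : Prop where
  dom : IsDom U
  inner : ball z R ⊆ reg U
  chart : DiscChart (reg U) φ
  zero : φ 0 = z
  mark : ∀ j, ‖p j‖ = 1 ∧ φ (p j) = pv (M.u j)
  sep : ∀ j l, j ≠ l → κ ≤ ‖p j - p l‖

/-- **Uniform Cardy formula.** -/
def UC : Prop := ∀ ε > (0 : ℝ), ∀ κ > (0 : ℝ), ∃ K : ℝ, ∀ (U : Finset Fc) (M : Marks U 4)
  (z : ℂ) (R : ℝ) (φ : ℂ → ℂ) (p : Fin 4 → ℂ), Sit 4 U M z R κ φ p → K ≤ R →
  |Pr U (Cross U (M.C 0) (M.C 2)) -
    Pool.Agent.H13.Q1.Four.cardy (crossR (p 0) (p 1) (p 2) (p 3)).re| ≤ ε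

/-- A1: the domain of `U` is a Jordan domain with boundary the boundary edges; charts exist. -/
def A1 : Prop := ∀ U : Finset Fc, IsDom U →
  (∀ z ∈ reg U, ∃ φ, DiscChart (reg U) φ ∧ φ 0 = z) ∧
  frontier (reg U) = ⋃ v : Vx, ⋃ k : Fin 3, ⋃ _ : isB U (ed v k), segment ℝ (pv v) (pv (nb v k))

/-- A2 (regularity up to the boundary in the disc, away from the marks). -/
def A2 : Prop := ∀ ε > (0 : ℝ), ∀ κ > (0 : ℝ), ∃ δ > (0 : ℝ), ∃ K : ℝ,
  ∀ (U : Finset Fc) (M : Marks U 3) (z : ℂ) (R : ℝ) (φ : ℂ → ℂ) (p : Fin 3 → ℂ),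
  Sit 3 U M z R κ φ p → K ≤ R →
  ∀ v k v' k' q q', inE U (ed v k) → inE U (ed v' k') → ‖q‖ ≤ 1 → ‖q'‖ ≤ 1 → φ q = mid v k →
  φ q' = mid v' k' → ‖q - q'‖ ≤ δ → (∀ j, κ ≤ ‖q - p j‖) →
  ∀ c c', IsRef M v c → IsRef M v' c' → ∀ j, |X M c v k j - X M c' v' k' j| ≤ ε

/-- A3+A4 (limit and uniqueness): at a boundary edge of the arc `C 0` the probability to be connected
to the mark `1` is given by Cardy's function. -/
def A34 : Prop := ∀ ε > (0 : ℝ), ∀ κ > (0 : ℝ), ∃ K : ℝ,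
  ∀ (U : Finset Fc) (M : Marks U 3) (z : ℂ) (R : ℝ) (φ : ℂ → ℂ) (p : Fin 3 → ℂ),
  Sit 3 U M z R κ φ p → K ≤ R →
  ∀ v k q, ed v k ∈ M.C 0 → ‖q‖ ≤ 1 → φ q = mid v k → (∀ j, κ ≤ ‖q - p j‖) →
  ∀ c, IsRef M v c →
  |X M c v k 1 - Pool.Agent.H13.Q1.Four.cardy (crossR (p 0) q (p 1) (p 2)).re| ≤ ε

end Pool.Agent.H7.UC
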