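import Pool.Agent.H7.UC.Near
import Pool.Agent.H10.UC.A5
import Pool.Agent.H21.UC.A34
import Pool.Agent.H45.UC.A4
import Pool.Agent.H69.UC.A2Main
import Pool.Agent.H52.Tri.D5
import Pool.Agent.H98.UC.D4b
import Pool.Agent.H98.UC.D4a
import Pool.Agent.H29.UC.D3b
import Pool.Agent.H63.UC.MD2
import Pool.Agent.H63.UC.MD1c

set_option autoImplicit false

/-! # The uniform Cardy formula on the triangular lattice -/

namespace Pool.Agent.H7.UC

theorem d6a_holds : D6a := d6a (d6c H98.UC.d3p H63.UC.d1c)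

/-- **Uniform Cardy formula** for all discrete simply connected domains of the triangular lattice. -/
theorem uc : UC := by
  have h1c : D1c := H63.UC.d1c
  have h3p : D3p := H98.UC.d3p
  have hA2 : A2 := H69.UC.a2 H52.Tri.d5 (d6b h3p h1c) (d6c h3p h1c)
  have hA34 : A34 := H21.UC.a34 h1c (H98.UC.d3a h1c) (H29.UC.d3b H63.UC.d1) H98.UC.d3c
    (H98.UC.d4a H63.UC.d2) hA2 H45.UC.A4_holds
  exact H10.UC.A5 hA34 (H98.UC.d4b H63.UC.d1 h1c H63.UC.d2) h1c

end Pool.Agent.H7.UC
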