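import Pool.Agent.H7.UC.Flip2

set_option autoImplicit false
open Pool.Agent.H75.Perc

/-! # Regularity in the bulk: core (`D6b` for a parallelogram) -/

namespace Pool.Agent.H7.UC

theorem Pr_abs_le {E : Finset Fc} {A B C : Finset Fc → Prop}
    (h : ∀ ω, ω ⊆ E → ¬ C ω → (A ω ↔ B ω)) : |Pr E A - Pr E B| ≤ Pr E C := by
  classical
  have h1 : Pr E A ≤ Pr E B + Pr E C := by
    refine le_trans (Pr_mono fun ω hω ha => ?_) (Pr_or_le E B C)
    by_cases hc : C ω
    · exact Or.inr hc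
    · exact Or.inl ((h ω hω hc).1 ha)
  have h2 : Pr E B ≤ Pr E A + Pr E C := by
    refine le_trans (Pr_mono fun ω hω ha => ?_) (Pr_or_le E A C)
    by_cases hc : C ω
    · exact Or.inr hc
    · exact Or.inl ((h ω hω hc).2 ha)
  rw [abs_le]
  constructor <;> linarith

/-- last exit from a set -/
theorem last_exit {α : Type*} {R : α → α → Prop} (V : Set α) {a b : α}
    (h : Relation.ReflTransGen R a b) (hb : b ∉ V) :
    (a ∉ V ∧ Relation.ReflTransGen (fun x y => x ∉ V ∧ R x y ∧ y ∉ V) a b) ∨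
    ∃ p ∈ V, ∃ q, q ∉ V ∧ R p q ∧ Relation.ReflTransGen (fun x y => x ∉ V ∧ R x y ∧ y ∉ V) q b := by
  induction h using Relation.ReflTransGen.head_induction_on with
  | refl => exact Or.inl ⟨hb, Relation.ReflTransGen.refl⟩
  | @head a d had hdb ih =>
    rcases ih with ⟨hd, ih⟩ | ih
    · by_cases ha : a ∈ V
      · exact Or.inr ⟨a, ha, d, hd, had, ih⟩
      · exact Or.inl ⟨ha, Relation.ReflTransGen.head ⟨ha, had, hd⟩ ih⟩
    · exact Or.inr ih

/-- reachable from `V0` through edges next to a face of `A`, inside the inner vertices -/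
def Stp (P : Finset Fc) (A : Set Fc) (a b : Vx) : Prop :=
  inn P a ∧ ∃ l, b = nb a l ∧ (fc a (l + 1) ∈ A ∨ fc a (l + 2) ∈ A)

/-- the region is left -/
def Rch (P : Finset Fc) (V0 : Set Vx) (A : Set Fc) : Prop :=
  ∃ w0 ∈ V0, ∃ w, ¬ inn P w ∧ Relation.ReflTransGen (Stp P A) w0 w

theorem AdjC_symm {x : Ed → ZMod 2} {a b : Vx} (h : AdjC x a b) : AdjC x b a := by
  obtain ⟨k, rfl, hk⟩ := h
  exact ⟨k, (nb_nb a k).symm, by rw [ed_nb]; exact hk⟩

theorem mark_not_inn {U P : Finset Fc} (M : Marks U 3) (hP : P ⊆ U) (j : Fin 3) :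
    ¬ inn P (M.u j) := by
  intro h
  obtain ⟨k, _, h2, _⟩ := M.out j
  exact h2 (hP (h (k + 1)))

/-- The CUT principle. -/
theorem cut_principle {x y : Ed → ZMod 2} {v v' : Vx} {k k' : Fin 3} {V : Set Vx} {u : Vx}
    (hu : u ∉ V) (hv : v ∈ V) (hvk : nb v k ∈ V) (hv' : v' ∈ V) (hvk' : nb v' k' ∈ V)
    (hxy : ∀ w l, y (ed w l) ≠ x (ed w l) → w ∈ V ∧ nb w l ∈ V)
    (hK : ∀ w ∈ V, ∀ l, nb w l ∉ V → x (ed w l) = 1 → Conn (del x (ed v k)) (stv x v k) (nb w l))
    (h : SConn y v' k' u) : SConn x v k u := by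
  rw [SConn_iff] at h ⊢
  -- edges which leave `V` or are outside `V`
  have e1 : ∀ w l, ¬ (w ∈ V ∧ nb w l ∈ V) → del y (ed v' k') (ed w l) = x (ed w l) ∧
      del x (ed v k) (ed w l) = x (ed w l) := by
    intro w l hw
    have n1 : ed w l ≠ ed v' k' := by
      intro h0
      apply hw
      rw [ed_eq_iff] at h0
      obtain ⟨rfl, rfl | rfl⟩ := h0
      · exact ⟨hv', hvk'⟩
      · rw [nb_nb] at hvk'; exact ⟨hvk', hv'⟩
    have n2 : ed w l ≠ ed v k := by
      intro h0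
      apply hw
      rw [ed_eq_iff] at h0
      obtain ⟨rfl, rfl | rfl⟩ := h0
      · exact ⟨hv, hvk⟩
      · rw [nb_nb] at hvk; exact ⟨hvk, hv⟩
    rw [del_ne _ n1, del_ne _ n2]
    refine ⟨?_, rfl⟩
    by_contra h0
    exact hw (hxy w l h0)
  have hst : stv y v' k' ∈ V := by
    rcases stv_or y v' k' with ⟨_, h2⟩ | ⟨_, h2⟩ <;> rw [h2] <;> assumption
  rcases last_exit V h hu with ⟨h0, _⟩ | ⟨p, hp, q, hq, ⟨l, rfl, hl⟩, hpath⟩
  · exact absurd hst h0
  · have h2 := e1 p l (fun h0 => hq h0.2)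
    have h3 : x (ed p l) = 1 := by rw [← h2.1]; exact hl
    refine Relation.ReflTransGen.trans (hK p hp l hq h3) ?_
    clear h3 h2 hl h
    refine Relation.ReflTransGen.mono ?_ _ _ hpath
    rintro a b ⟨ha, ⟨m, rfl, hm⟩, hb⟩
    have h4 := e1 a m (fun h0 => hb h0.2)
    exact ⟨m, rfl, by rw [h4.2, ← h4.1]; exact hm⟩

theorem good_iff (h3 : D3p) {U : Finset Fc} (M : Marks U 3) (hU : IsDom U) {P : Finset Fc}
    (hPU : P ⊆ U) (hLE : LE P) {v v' : Vx} {k k' : Fin 3} {V0 : Set Vx} (hv : v ∈ V0)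
    (hvk : nb v k ∈ V0) (hv' : v' ∈ V0) (hvk' : nb v' k' ∈ V0) (hV0 : ∀ w ∈ V0, inn P w)
    {γ : Ed → ZMod 2} (hγs : ∀ w l, γ (ed w l) ≠ 0 → w ∈ V0 ∧ nb w l ∈ V0)
    {c : Ed → ZMod 2} (hc : IsRef M v c) (hc' : IsRef M v' (fun e => c e + γ e))
    {ω : Finset Fc} (hω : ω ⊆ U) (hg : ¬ Rch P V0 ↑(Phi P c v k ω)) (j : Fin 3) :
    SConn (xi c ω) v k (M.u j) ↔ SConn (xi (fun e => c e + γ e) ω) v' k' (M.u j) := by
  classical
  have hum := mark_not_inn M hPU
  have hcd : ∀ w, inn P w → dv c w = ind {v} w := by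
    intro w hw
    rw [hc.dv w]
    have : ∀ i : Fin 3, w ≠ M.u i := by
      rintro i rfl
      exact hum i hw
    rw [ind_not_mem (a := w) (s := {M.u 0}) (by simpa using this 0),
      ind_not_mem (a := w) (s := {M.u 1}) (by simpa using this 1),
      ind_not_mem (a := w) (s := {M.u 2}) (by simpa using this 2)]
    ring
  -- new white faces
  let A1 : Set Fc := {f | f ∈ P ∧ ind (↑ω : Set Fc) f + kap P c v k ω f = 1}
  have hA : A1 ⊆ ↑(Phi P c v k ω) := by
    rintro f ⟨hf, hf1⟩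
    have hnS : f ∉ Sf P (xi c ω) v k := by
      rintro ⟨w, hw, l, rfl⟩
      rw [kap_strand hLE hcd (hV0 _ hv) (hV0 _ hvk) hw l] at hf1
      exact absurd hf1 (by decide)
    have h5 : ind (↑(Phi P c v k ω) : Set Fc) f = 1 := by
      rw [ind_Phi]
      rcases z2_cases (kap P c v k ω f) with h0 | h0
      · rw [ind_not_mem (s := (↑(Fl P c v k ω) : Set Fc))]
        · rw [h0] at hf1; exact hf1
        · rw [Finset.mem_coe, mem_Fl]
          rintro ⟨_, _, h6⟩
          rw [h0] at h6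
          exact absurd h6 (by decide)
      · rw [ind_mem (s := (↑(Fl P c v k ω) : Set Fc))]
        · rw [h0] at hf1; exact hf1
        · rw [Finset.mem_coe, mem_Fl]
          exact ⟨hf, hnS, h0⟩
    by_contra h6
    rw [ind_not_mem h6] at h5
    exact absurd h5 (by decide)
  let V : Set Vx := {w | ∃ w0 ∈ V0, Relation.ReflTransGen (Stp P A1) w0 w}
  have hVi : ∀ w ∈ V, inn P w := by
    rintro w ⟨w0, hw0, hw⟩
    by_contra h0
    refine hg ⟨w0, hw0, w, h0, Relation.ReflTransGen.mono ?_ _ _ hw⟩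
    rintro a b ⟨ha, l, rfl, hl⟩
    exact ⟨ha, l, rfl, hl.imp (fun h => hA h) (fun h => hA h)⟩
  have hV0V : V0 ⊆ V := fun w hw => ⟨w, hw, Relation.ReflTransGen.refl⟩
  have hu : ∀ i, M.u i ∉ V := fun i h => hum i (hVi _ h)
  -- the chains differ only inside `V0`
  have hxy : ∀ w l, xi (fun e => c e + γ e) ω (ed w l) ≠ xi c ω (ed w l) → w ∈ V ∧ nb w l ∈ V := by
    intro w l h0
    have : γ (ed w l) ≠ 0 := by
      intro h1
      apply h0
      simp only [xi, h1, add_zero]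
    exact ⟨hV0V (hγs w l this).1, hV0V (hγs w l this).2⟩
  -- edges of the chain which leave `V` are on the strand
  have hK : ∀ w ∈ V, ∀ l, nb w l ∉ V → xi c ω (ed w l) = 1 →
      Conn (del (xi c ω) (ed v k)) (stv (xi c ω) v k) (nb w l) := by
    intro w hw l hn h1
    have hi := hVi w hw
    have hnot : ¬ (fc w (l + 1) ∈ A1 ∨ fc w (l + 2) ∈ A1) := by
      intro h0
      apply hn
      obtain ⟨w0, hw0, hw1⟩ := hw
      exact ⟨w0, hw0, hw1.tail ⟨hi, l, rfl, h0⟩⟩
    push Not at hnot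
    have z : ∀ f, f ∈ P → f ∉ A1 → ind (↑ω : Set Fc) f + kap P c v k ω f = 0 := by
      intro f hf hf1
      rcases z2_cases (ind (↑ω : Set Fc) f + kap P c v k ω f) with h0 | h0
      · exact h0
      · exact absurd ⟨hf, h0⟩ hf1
    have hs := sum_kap hLE (k := k) (ω := ω) hcd w l (hi _) (hi _)
    rw [z _ (hi _) hnot.1, z _ (hi _) hnot.2, h1, add_zero] at hs
    have hcut : cut P (xi c ω) v k (ed w l) = 1 := by
      generalize cut P (xi c ω) v k (ed w l) = a at hs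
      clear * - hs
      revert a
      decide
    have hne : ed w l ≠ ed v k := by
      intro h0
      rw [ed_eq_iff] at h0
      obtain ⟨rfl, rfl | rfl⟩ := h0
      · exact hn (hV0V hvk)
      · rw [nb_nb] at hvk
        exact hn (hV0V hv)
    have hdel : del (xi c ω) (ed v k) (ed w l) = 1 := by rw [del_ne _ hne, h1]
    by_cases hwG : w ∈ Gam P (xi c ω) v k
    · exact (Gam_conn hwG).tail ⟨l, rfl, hdel⟩
    · rw [cut_off hi hwG l hne] at hcut
      exact absurd hcut (by decide)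
  have hB : ∀ i, SConn (xi (fun e => c e + γ e) ω) v' k' (M.u i) → SConn (xi c ω) v k (M.u i) :=
    fun i h => cut_principle (hu i) (hV0V hv) (hV0V hvk) (hV0V hv') (hV0V hvk') hxy hK h
  -- existence and uniqueness
  have hdb : ∀ w, dv (bd (↑ω : Set Fc)) w = 0 := by
    intro w
    unfold dv
    rw [bd_ed, bd_ed, bd_ed]
    simp only [Fin.isValue, zero_add]
    have e0 : (1 : Fin 3) + 1 = 2 := rfl
    have e1 : (1 : Fin 3) + 2 = 0 := rfl
    have e2 : (2 : Fin 3) + 1 = 0 := rfl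
    have e3 : (2 : Fin 3) + 2 = 1 := rfl
    rw [e0, e1, e2, e3]
    generalize ind (↑ω : Set Fc) (fc w 0) = a0
    generalize ind (↑ω : Set Fc) (fc w 1) = a1
    generalize ind (↑ω : Set Fc) (fc w 2) = a2
    clear * -
    revert a0 a1 a2
    decide
  have hbs : ∀ e, bd (↑ω : Set Fc) e ≠ 0 → inE U e := by
    intro e he
    by_contra h0
    unfold inE at h0
    push Not at h0
    apply he
    unfold bd
    rw [ind_not_mem (fun h => h0.1 (hω h)), ind_not_mem (fun h => h0.2 (hω h)), add_zero]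
  have ref : ∀ (v0 : Vx) (c0 : Ed → ZMod 2), IsRef M v0 c0 → IsRef M v0 (xi c0 ω) := by
    intro v0 c0 h0
    refine ⟨?_, ?_⟩
    · intro e he
      by_cases h1 : c0 e = 0
      · apply hbs
        intro h2
        exact he (by simp [xi, h1, h2])
      · exact h0.supp e h1
    · intro w
      have : dv (xi c0 ω) w = dv c0 w + dv (bd (↑ω : Set Fc)) w := by unfold dv xi; ring
      rw [this, hdb, add_zero, h0.dv]
  have hne : ∀ w ∈ V0, ∀ i, w ≠ M.u i := by
    rintro w hw i rfl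
    exact hum i (hV0 _ hw)
  have hin : ∀ w ∈ V0, ∀ l, inE U (ed w l) := by
    intro w hw l
    rcases faces_ed w l with ⟨_, h1, _⟩ | ⟨_, h1, _⟩ <;>
      exact Or.inl (by rw [h1]; exact hPU (hV0 w hw _))
  obtain ⟨i1, hi1, hi1'⟩ := h3 U M hU v k (hin v hv k) (fun i => ⟨hne _ hv i, hne _ hvk i⟩) _
    (ref v c hc)
  obtain ⟨i2, hi2, hi2'⟩ := h3 U M hU v' k' (hin v' hv' k') (fun i => ⟨hne _ hv' i, hne _ hvk' i⟩) _
    (ref v' _ hc')
  have h12 : i2 = i1 := hi1' i2 (hB i2 hi2)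
  constructor
  · intro h
    have := hi1' j h
    rw [this, ← h12]
    exact hi2
  · exact hB j

/-- core of `D6b` -/
theorem bulk_core (h3 : D3p) (h1 : D1c) {U : Finset Fc} (M : Marks U 3) (hU : IsDom U)
    {P : Finset Fc} (hPU : P ⊆ U) (hLE : LE P) {v v' : Vx} {k k' : Fin 3} {V0 : Set Vx}
    (hv : v ∈ V0) (hvk : nb v k ∈ V0) (hv' : v' ∈ V0) (hvk' : nb v' k' ∈ V0)
    (hV0 : ∀ w ∈ V0, inn P w) {γ : Ed → ZMod 2}
    (hγs : ∀ w l, γ (ed w l) ≠ 0 → w ∈ V0 ∧ nb w l ∈ V0)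
    (hγd : ∀ w, dv γ w = ind {v} w + ind {v'} w)
    {c c' : Ed → ZMod 2} (hc : IsRef M v c) (hc' : IsRef M v' c') (j : Fin 3) :
    |X M c v k j - X M c' v' k' j| ≤ Pr U (fun ω => Rch P V0 ↑ω) := by
  classical
  have hc2 : IsRef M v' (fun e => c e + γ e) := by
    refine ⟨?_, ?_⟩
    · intro e he
      by_cases h0 : c e = 0
      · have h2 : γ e ≠ 0 := by
          intro h4
          exact he (by simp [h0, h4])
        obtain ⟨a, b, d⟩ := e
        have e1 : ((a, b, d) : Ed) = ed (a, b, false) d := rfl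
        rw [e1] at h2 ⊢
        have := hV0 _ (hγs _ _ h2).1
        rcases faces_ed (a, b, false) d with ⟨_, h5, _⟩ | ⟨_, h5, _⟩ <;>
          exact Or.inl (by rw [h5]; exact hPU (this _))
      · exact hc.supp e h0
    · intro w
      have e1 : dv (fun e => c e + γ e) w = dv c w + dv γ w := by unfold dv; ring
      rw [e1, hc.dv, hγd]
      generalize ind {v} w = a
      generalize ind {v'} w = b
      generalize ind {M.u 0} w = d
      generalize ind {M.u 1} w = e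
      generalize ind {M.u 2} w = f
      clear * -
      revert a b d e f
      decide
  have hiv : inV U v' := ⟨0, hPU (hV0 _ hv' 0)⟩
  rw [(h1 U M hU v' hiv).2 c' (fun e => c e + γ e) hc' hc2 k' j]
  rw [← Pr_Phi hPU c v k (fun ω => Rch P V0 ↑ω)]
  refine Pr_abs_le (fun ω hω hg => ?_)
  exact good_iff h3 M hU hPU hLE hv hvk hv' hvk' hV0 hγs hc hc2 hω hg j

end Pool.Agent.H7.UC
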