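import Pool.Agent.H7.UC.Exact

set_option autoImplicit false
open Pool.Agent.H75.Perc

/-!
# Exploration of the strand and the flip involution

`x` = chain with an odd vertex at `v`.  `Gam P x v k` = vertices of the strand of the middle of
`ed v k` up to its first exit from the inner vertices of `P`; `cut` = the edges of the strand;
`kap` = faces between the reference chain and the strand; `Phi` = the flip.
-/

namespace Pool.Agent.H7.UC

/-- first vertex of the half strand -/
noncomputable def stv (x : Ed → ZMod 2) (v : Vx) (k : Fin 3) : Vx := by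
  classical exact if x (ed v k) = 1 then nb v k else v

theorem stv_or (x : Ed → ZMod 2) (v : Vx) (k : Fin 3) :
    (x (ed v k) = 1 ∧ stv x v k = nb v k) ∨ (x (ed v k) = 0 ∧ stv x v k = v) := by
  unfold stv
  rcases z2_cases (x (ed v k)) with h | h
  · right; simp [h]
  · left; simp [h]

theorem SConn_iff (x : Ed → ZMod 2) (v : Vx) (k : Fin 3) (u : Vx) :
    SConn x v k u ↔ Conn (del x (ed v k)) (stv x v k) u := by
  unfold SConn
  rcases stv_or x v k with ⟨h1, h2⟩ | ⟨h1, h2⟩
  · rw [h2, h1]; simp
  · rw [h2, h1]; simp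

theorem del_self (x : Ed → ZMod 2) (e : Ed) : del x e e = 0 := by
  classical
  unfold del; simp

theorem del_ne (x : Ed → ZMod 2) {e e' : Ed} (h : e' ≠ e) : del x e e' = x e' := by
  classical
  unfold del; simp [h]

/-- the strand inside the inner vertices of `P` -/
def Gam (P : Finset Fc) (x : Ed → ZMod 2) (v : Vx) (k : Fin 3) : Set Vx :=
  {w | Relation.ReflTransGen (fun a b => inn P b ∧ AdjC (del x (ed v k)) a b) (stv x v k) w}

theorem start_mem (P : Finset Fc) (x : Ed → ZMod 2) (v : Vx) (k : Fin 3) :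
    stv x v k ∈ Gam P x v k := Relation.ReflTransGen.refl

theorem Gam_inn {P : Finset Fc} {x : Ed → ZMod 2} {v : Vx} {k : Fin 3} (h : inn P v)
    (h' : inn P (nb v k)) {w : Vx} (hw : w ∈ Gam P x v k) : inn P w := by
  induction hw with
  | refl => rcases stv_or x v k with ⟨_, h2⟩ | ⟨_, h2⟩ <;> rw [h2] <;> assumption
  | tail _ h3 _ => exact h3.1

theorem Gam_conn {P : Finset Fc} {x : Ed → ZMod 2} {v : Vx} {k : Fin 3} {w : Vx}
    (hw : w ∈ Gam P x v k) : Conn (del x (ed v k)) (stv x v k) w := by
  induction hw with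
  | refl => exact Relation.ReflTransGen.refl
  | tail _ h3 ih => exact ih.tail h3.2

/-- the edges of the strand (with the last edge, which leaves the region) -/
noncomputable def cut (P : Finset Fc) (x : Ed → ZMod 2) (v : Vx) (k : Fin 3) (e : Ed) : ZMod 2 := by
  classical exact if e = ed v k ∨ ∃ w ∈ Gam P x v k, ∃ l, e = ed w l then x e else 0

theorem cut_at {P : Finset Fc} {x : Ed → ZMod 2} {v : Vx} {k : Fin 3} {w : Vx}
    (hw : w ∈ Gam P x v k) (l : Fin 3) : cut P x v k (ed w l) = x (ed w l) := by
  classical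
  unfold cut
  rw [if_pos (Or.inr ⟨w, hw, l, rfl⟩)]

theorem cut_self {P : Finset Fc} {x : Ed → ZMod 2} {v : Vx} {k : Fin 3} :
    cut P x v k (ed v k) = x (ed v k) := by
  classical
  unfold cut
  rw [if_pos (Or.inl rfl)]

theorem cut_off {P : Finset Fc} {x : Ed → ZMod 2} {v : Vx} {k : Fin 3} {w : Vx}
    (hi : inn P w) (hw : w ∉ Gam P x v k) (l : Fin 3) (hl : ed w l ≠ ed v k) :
    cut P x v k (ed w l) = 0 := by
  classical
  unfold cut
  split_ifs with h
  · rcases h with h | ⟨w', hw', l', h⟩
    · exact absurd h hl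
    · rw [ed_eq_iff] at h
      obtain ⟨rfl, rfl | rfl⟩ := h
      · exact absurd hw' hw
      · rcases z2_cases (x (ed w l)) with h0 | h0
        · exact h0
        · exfalso
          apply hw
          have e1 : nb (nb w l) l = w := nb_nb w l
          refine Relation.ReflTransGen.tail (b := nb w l) hw' ⟨hi, l, e1.symm, ?_⟩
          rw [ed_nb, del_ne x hl, h0]
  · rfl

theorem dv_eq (x : Ed → ZMod 2) (w : Vx) (l : Fin 3) :
    dv x w = x (ed w l) + (x (ed w (l + 1)) + x (ed w (l + 2))) := by
  unfold dv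
  fin_cases l
  · simp; ring
  · simp; ring
  · simp; ring

theorem dv_cut {P : Finset Fc} {x : Ed → ZMod 2} {v : Vx} {k : Fin 3} {w : Vx}
    (hi : inn P w) (hx : dv x w = ind {v} w) : dv (cut P x v k) w = ind {v} w := by
  classical
  by_cases hw : w ∈ Gam P x v k
  · rw [← hx]
    unfold dv
    rw [cut_at hw, cut_at hw, cut_at hw]
  · by_cases h : w = v ∨ w = nb v k
    · -- the edge `ed v k` is at `w`
      have hk : ed w k = ed v k := by
        rcases h with rfl | rfl
        · rfl
        · exact ed_nb v k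
      have h1 : ed w (k + 1) ≠ ed v k := by
        rw [← hk, Ne, ed_eq_iff]
        intro h; revert h
        have : k + 1 ≠ k := by fin_cases k <;> decide
        tauto
      have h2 : ed w (k + 2) ≠ ed v k := by
        rw [← hk, Ne, ed_eq_iff]
        have : k + 2 ≠ k := by fin_cases k <;> decide
        tauto
      rw [dv_eq _ w k, cut_off hi hw _ h1, cut_off hi hw _ h2, hk, cut_self]
      rcases stv_or x v k with ⟨h3, h4⟩ | ⟨h3, h4⟩
      · have : w ≠ nb v k := by
          rintro rfl
          exact hw (h4 ▸ start_mem P x v k)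
        have : w = v := by tauto
        subst this
        rw [h3, ind_mem (Set.mem_singleton _)]; ring
      · have : w ≠ v := by
          rintro rfl
          apply hw
          have := start_mem P x w k
          rwa [h4] at this
        rw [h3, ind_not_mem (by simpa using this)]; ring
    · push Not at h
      have h0 : ∀ l, ed w l ≠ ed v k := by
        intro l hl
        rw [ed_eq_iff] at hl
        obtain ⟨rfl, h5 | h5⟩ := hl
        · exact h.1 h5.symm
        · apply h.2
          rw [h5, nb_nb]
      unfold dv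
      rw [cut_off hi hw _ (h0 _), cut_off hi hw _ (h0 _), cut_off hi hw _ (h0 _),
        ind_not_mem (by simpa using h.1)]
      ring

/-- the faces touching the strand -/
def Sf (P : Finset Fc) (x : Ed → ZMod 2) (v : Vx) (k : Fin 3) : Set Fc :=
  {f | ∃ w ∈ Gam P x v k, ∃ l, f = fc w l}

/-- the potential of a chain in `P` -/
noncomputable def pot (P : Finset Fc) (y : Ed → ZMod 2) : Set Fc := by
  classical exact (if h : (∃ s : Set Fc, ∀ v k, fc v (k + 1) ∈ P → fc v (k + 2) ∈ P →
      bd s (ed v k) = y (ed v k)) then Classical.choose h else ∅)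

theorem pot_spec {P : Finset Fc} (hP : LE P) {y : Ed → ZMod 2} (hy : ∀ w, inn P w → dv y w = 0)
    (v : Vx) (k : Fin 3) (h1 : fc v (k + 1) ∈ P) (h2 : fc v (k + 2) ∈ P) :
    bd (pot P y) (ed v k) = y (ed v k) := by
  classical
  unfold pot
  rw [dif_pos (hP y hy)]
  exact Classical.choose_spec (hP y hy) v k h1 h2

/-- chain of a configuration -/
noncomputable def xi (c : Ed → ZMod 2) (ω : Finset Fc) : Ed → ZMod 2 := fun e => c e + bd (↑ω) e

/-- the faces between the reference chain and the strand, normalised by the colour `0` along the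
strand: indicator function -/
noncomputable def kap (P : Finset Fc) (c : Ed → ZMod 2) (v : Vx) (k : Fin 3) (ω : Finset Fc)
    (f : Fc) : ZMod 2 :=
  let x := xi c ω
  let s := pot P (fun e => cut P x v k e + c e)
  ind s f + (ind (↑ω : Set Fc) (fc (stv x v k) 0) + ind s (fc (stv x v k) 0))

theorem add_bd (ω : Finset Fc) (k' : Fc → ZMod 2) (s : Set Fc) (t : ZMod 2)
    (h : ∀ f, k' f = ind s f + t) (w : Vx) (l : Fin 3) :
    (ind (↑ω : Set Fc) (fc w (l + 1)) + k' (fc w (l + 1))) +
      (ind (↑ω : Set Fc) (fc w (l + 2)) + k' (fc w (l + 2))) =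
    bd (↑ω) (ed w l) + bd s (ed w l) := by
  rw [bd_ed, bd_ed, h, h]
  have := z2_add_self t
  generalize ind (↑ω : Set Fc) (fc w (l + 1)) = a
  generalize ind (↑ω : Set Fc) (fc w (l + 2)) = b
  generalize ind s (fc w (l + 1)) = a'
  generalize ind s (fc w (l + 2)) = b'
  calc a + (a' + t) + (b + (b' + t)) = a + b + (a' + b') + (t + t) := by ring
    _ = _ := by rw [this, add_zero]

/-- new colouring: the difference over an edge of `P` is the chain without the cut -/
theorem sum_kap {P : Finset Fc} (hP : LE P) {c : Ed → ZMod 2} {v : Vx} {k : Fin 3} {ω : Finset Fc}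
    (hc : ∀ w, inn P w → dv c w = ind {v} w) (w : Vx) (l : Fin 3)
    (h1 : fc w (l + 1) ∈ P) (h2 : fc w (l + 2) ∈ P) :
    (ind (↑ω : Set Fc) (fc w (l + 1)) + kap P c v k ω (fc w (l + 1))) +
      (ind (↑ω : Set Fc) (fc w (l + 2)) + kap P c v k ω (fc w (l + 2))) =
    xi c ω (ed w l) + cut P (xi c ω) v k (ed w l) := by
  have hy : ∀ w, inn P w → dv (fun e => cut P (xi c ω) v k e + c e) w = 0 := by
    intro w hw
    have e1 : dv (xi c ω) w = ind {v} w := by
      rw [← hc w hw]
      have : dv (bd (↑ω : Set Fc)) w = 0 := by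
        unfold dv
        rw [bd_ed, bd_ed, bd_ed]
        generalize ind (↑ω : Set Fc) (fc w 0) = a0
        simp only [Fin.isValue, zero_add]
        have e0 : (1 : Fin 3) + 1 = 2 := rfl
        have e1 : (1 : Fin 3) + 2 = 0 := rfl
        have e2 : (2 : Fin 3) + 1 = 0 := rfl
        have e3 : (2 : Fin 3) + 2 = 1 := rfl
        rw [e0, e1, e2, e3]
        generalize ind (↑ω : Set Fc) (fc w 0) = a0
        generalize ind (↑ω : Set Fc) (fc w 1) = a1
        generalize ind (↑ω : Set Fc) (fc w 2) = a2
        revert a0 a1 a2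
        decide
      calc dv (xi c ω) w = dv c w + dv (bd (↑ω : Set Fc)) w := by unfold dv xi; ring
        _ = _ := by rw [this, add_zero]
    have e2 := dv_cut (k := k) hw e1
    calc dv (fun e => cut P (xi c ω) v k e + c e) w = dv (cut P (xi c ω) v k) w + dv c w := by
          unfold dv; ring
      _ = 0 := by rw [e2, hc w hw]; exact z2_add_self _
  have h3 := pot_spec hP hy w l h1 h2
  rw [add_bd ω (kap P c v k ω) (pot P (fun e => cut P (xi c ω) v k e + c e)) _
    (fun f => rfl) w l, h3]
  unfold xi
  generalize c (ed w l) = a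
  generalize bd (↑ω : Set Fc) (ed w l) = b
  generalize cut P (fun e => c e + bd (↑ω) e) v k (ed w l) = d
  revert a b d
  decide

/-- the new colour along the strand is `0` -/
theorem kap_strand {P : Finset Fc} (hP : LE P) {c : Ed → ZMod 2} {v : Vx} {k : Fin 3}
    {ω : Finset Fc} (hc : ∀ w, inn P w → dv c w = ind {v} w) (h : inn P v) (h' : inn P (nb v k))
    {w : Vx} (hw : w ∈ Gam P (xi c ω) v k) (l : Fin 3) :
    ind (↑ω : Set Fc) (fc w l) + kap P c v k ω (fc w l) = 0 := by
  -- all faces at a vertex of the strand have the same value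
  have same : ∀ w ∈ Gam P (xi c ω) v k, ∀ l : Fin 3,
      ind (↑ω : Set Fc) (fc w (l + 1)) + kap P c v k ω (fc w (l + 1)) =
      ind (↑ω : Set Fc) (fc w (l + 2)) + kap P c v k ω (fc w (l + 2)) := by
    intro w hw l
    have hi := Gam_inn h h' hw
    have := sum_kap hP (k := k) (ω := ω) hc w l (hi _) (hi _)
    rw [cut_at hw, z2_add_self] at this
    generalize ind (↑ω : Set Fc) (fc w (l + 1)) + kap P c v k ω (fc w (l + 1)) = a at *
    generalize ind (↑ω : Set Fc) (fc w (l + 2)) + kap P c v k ω (fc w (l + 2)) = b at *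
    revert a b
    decide
  have all : ∀ w ∈ Gam P (xi c ω) v k, ∀ l l' : Fin 3,
      ind (↑ω : Set Fc) (fc w l) + kap P c v k ω (fc w l) =
      ind (↑ω : Set Fc) (fc w l') + kap P c v k ω (fc w l') := by
    intro w hw
    have a0 := same w hw 0
    have a1 := same w hw 1
    have a2 := same w hw 2
    have e0 : (1 : Fin 3) + 1 = 2 := rfl
    have e1 : (1 : Fin 3) + 2 = 0 := rfl
    have e2 : (2 : Fin 3) + 1 = 0 := rfl
    have e3 : (2 : Fin 3) + 2 = 1 := rfl
    simp only [Fin.isValue, zero_add] at a0
    rw [e0, e1] at a1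
    rw [e2, e3] at a2
    intro l l'
    fin_cases l <;> fin_cases l' <;> simp_all
  have hbase : ind (↑ω : Set Fc) (fc (stv (xi c ω) v k) 0) +
      kap P c v k ω (fc (stv (xi c ω) v k) 0) = 0 := by
    simp only [kap]
    generalize ind (↑ω : Set Fc) (fc (stv (xi c ω) v k) 0) = a
    generalize ind (pot P (fun e => cut P (xi c ω) v k e + c e)) (fc (stv (xi c ω) v k) 0) = b
    clear same all
    revert a b
    decide
  have hall : ∀ w ∈ Gam P (xi c ω) v k, ∀ l : Fin 3,
      ind (↑ω : Set Fc) (fc w l) + kap P c v k ω (fc w l) = 0 := by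
    intro w hw
    induction hw with
    | refl => intro l; rw [all _ (start_mem _ _ _ _) l 0, hbase]
    | @tail b d hb hbd ih =>
      intro l
      obtain ⟨hd, m, rfl, hm⟩ := hbd
      have hd' : nb b m ∈ Gam P (xi c ω) v k := Relation.ReflTransGen.tail hb ⟨hd, m, rfl, hm⟩
      rw [all _ hd' l (m + 1), fc_nb1]
      exact ih (m + 2)
  exact hall w hw l

end Pool.Agent.H7.UC
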