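import Pool.Agent.H7.UC.Flip

set_option autoImplicit false
open Pool.Agent.H75.Perc

/-! # The flip is an involution -/

namespace Pool.Agent.H7.UC

section Loc

variable {P : Finset Fc} {c : Ed → ZMod 2} {v : Vx} {k : Fin 3} {ω ω' : Finset Fc}

theorem bd_congr {s t : Set Fc} (w : Vx) (l : Fin 3)
    (h1 : ind s (fc w (l + 1)) = ind t (fc w (l + 1)))
    (h2 : ind s (fc w (l + 2)) = ind t (fc w (l + 2))) : bd s (ed w l) = bd t (ed w l) := by
  rw [bd_ed, bd_ed, h1, h2]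

theorem xi_loc (h : ∀ f ∈ Sf P (xi c ω) v k, ind (↑ω' : Set Fc) f = ind (↑ω : Set Fc) f) {w : Vx}
    (hw : w ∈ Gam P (xi c ω) v k) (l : Fin 3) : xi c ω' (ed w l) = xi c ω (ed w l) := by
  unfold xi
  rw [bd_congr w l (h _ ⟨w, hw, _, rfl⟩) (h _ ⟨w, hw, _, rfl⟩)]

theorem ed_stv (x : Ed → ZMod 2) (v : Vx) (k : Fin 3) : ed (stv x v k) k = ed v k := by
  rcases stv_or x v k with ⟨_, h⟩ | ⟨_, h⟩ <;> rw [h]
  exact ed_nb v k

theorem xi_loc0 (h : ∀ f ∈ Sf P (xi c ω) v k, ind (↑ω' : Set Fc) f = ind (↑ω : Set Fc) f) :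
    xi c ω' (ed v k) = xi c ω (ed v k) := by
  have := xi_loc h (start_mem P (xi c ω) v k) k
  rwa [ed_stv] at this

theorem stv_loc (h : ∀ f ∈ Sf P (xi c ω) v k, ind (↑ω' : Set Fc) f = ind (↑ω : Set Fc) f) :
    stv (xi c ω') v k = stv (xi c ω) v k := by
  unfold stv
  rw [xi_loc0 h]

theorem del_loc (h : ∀ f ∈ Sf P (xi c ω) v k, ind (↑ω' : Set Fc) f = ind (↑ω : Set Fc) f) {w : Vx}
    (hw : w ∈ Gam P (xi c ω) v k) (l : Fin 3) :
    del (xi c ω') (ed v k) (ed w l) = del (xi c ω) (ed v k) (ed w l) := by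
  by_cases h0 : ed w l = ed v k
  · rw [h0, del_self, del_self]
  · rw [del_ne _ h0, del_ne _ h0, xi_loc h hw]

theorem Gam_loc (h : ∀ f ∈ Sf P (xi c ω) v k, ind (↑ω' : Set Fc) f = ind (↑ω : Set Fc) f) :
    Gam P (xi c ω') v k = Gam P (xi c ω) v k := by
  ext w
  constructor
  · intro hw
    induction hw with
    | refl => rw [stv_loc h]; exact start_mem _ _ _ _
    | @tail b d _ hbd ih =>
      obtain ⟨hd, m, rfl, hm⟩ := hbd
      refine Relation.ReflTransGen.tail ih ⟨hd, m, rfl, ?_⟩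
      rwa [← del_loc h ih]
  · intro hw
    induction hw with
    | refl => rw [← stv_loc h]; exact start_mem _ _ _ _
    | @tail b d hb hbd ih =>
      obtain ⟨hd, m, rfl, hm⟩ := hbd
      refine Relation.ReflTransGen.tail ih ⟨hd, m, rfl, ?_⟩
      rwa [del_loc h hb]

theorem Sf_loc (h : ∀ f ∈ Sf P (xi c ω) v k, ind (↑ω' : Set Fc) f = ind (↑ω : Set Fc) f) :
    Sf P (xi c ω') v k = Sf P (xi c ω) v k := by
  unfold Sf
  rw [Gam_loc h]

theorem cut_loc (h : ∀ f ∈ Sf P (xi c ω) v k, ind (↑ω' : Set Fc) f = ind (↑ω : Set Fc) f) :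
    cut P (xi c ω') v k = cut P (xi c ω) v k := by
  classical
  funext e
  unfold cut
  rw [Gam_loc h]
  by_cases h0 : e = ed v k ∨ ∃ w ∈ Gam P (xi c ω) v k, ∃ l, e = ed w l
  · rw [if_pos h0, if_pos h0]
    rcases h0 with rfl | ⟨w, hw, l, rfl⟩
    · exact xi_loc0 h
    · exact xi_loc h hw l
  · rw [if_neg h0, if_neg h0]

theorem kap_loc (h : ∀ f ∈ Sf P (xi c ω) v k, ind (↑ω' : Set Fc) f = ind (↑ω : Set Fc) f) :
    kap P c v k ω' = kap P c v k ω := by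
  funext f
  simp only [kap]
  rw [cut_loc h, stv_loc h, h _ ⟨_, start_mem _ _ _ _, 0, rfl⟩]

end Loc

/-- the flipped faces -/
noncomputable def Fl (P : Finset Fc) (c : Ed → ZMod 2) (v : Vx) (k : Fin 3) (ω : Finset Fc) :
    Finset Fc := by
  classical exact P.filter (fun f => f ∉ Sf P (xi c ω) v k ∧ kap P c v k ω f = 1)

/-- the flip -/
noncomputable def Phi (P : Finset Fc) (c : Ed → ZMod 2) (v : Vx) (k : Fin 3) (ω : Finset Fc) :
    Finset Fc := by
  classical exact symmDiff ω (Fl P c v k ω)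

theorem mem_Fl {P : Finset Fc} {c : Ed → ZMod 2} {v : Vx} {k : Fin 3} {ω : Finset Fc} {f : Fc} :
    f ∈ Fl P c v k ω ↔ f ∈ P ∧ f ∉ Sf P (xi c ω) v k ∧ kap P c v k ω f = 1 := by
  classical
  unfold Fl
  rw [Finset.mem_filter]

theorem ind_symm (s t : Finset Fc) (f : Fc) [DecidableEq Fc] :
    ind (↑(symmDiff s t) : Set Fc) f = ind (↑s : Set Fc) f + ind (↑t : Set Fc) f := by
  classical
  rw [ind_eq, ind_eq, ind_eq]
  simp only [Finset.coe_symmDiff, Set.mem_symmDiff, Finset.mem_coe]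
  by_cases h1 : f ∈ s <;> by_cases h2 : f ∈ t <;> simp [h1, h2]
  decide

theorem ind_Phi (P : Finset Fc) (c : Ed → ZMod 2) (v : Vx) (k : Fin 3) (ω : Finset Fc) (f : Fc) :
    ind (↑(Phi P c v k ω) : Set Fc) f = ind (↑ω : Set Fc) f + ind (↑(Fl P c v k ω) : Set Fc) f := by
  classical
  unfold Phi
  exact ind_symm _ _ _

theorem Phi_Sf {P : Finset Fc} {c : Ed → ZMod 2} {v : Vx} {k : Fin 3} {ω : Finset Fc} :
    ∀ f ∈ Sf P (xi c ω) v k, ind (↑(Phi P c v k ω) : Set Fc) f = ind (↑ω : Set Fc) f := by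
  intro f hf
  rw [ind_Phi, ind_not_mem (s := (↑(Fl P c v k ω) : Set Fc)), add_zero]
  rw [Finset.mem_coe, mem_Fl]
  tauto

theorem Fl_Phi (P : Finset Fc) (c : Ed → ZMod 2) (v : Vx) (k : Fin 3) (ω : Finset Fc) :
    Fl P c v k (Phi P c v k ω) = Fl P c v k ω := by
  classical
  have h := @Phi_Sf P c v k ω
  unfold Fl
  rw [Sf_loc h, kap_loc h]

theorem Phi_Phi (P : Finset Fc) (c : Ed → ZMod 2) (v : Vx) (k : Fin 3) (ω : Finset Fc) :
    Phi P c v k (Phi P c v k ω) = ω := by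
  classical
  have h : Phi P c v k (Phi P c v k ω) =
      symmDiff (Phi P c v k ω) (Fl P c v k (Phi P c v k ω)) := by
    conv_lhs => unfold Phi
    rfl
  rw [h, Fl_Phi]
  unfold Phi
  rw [symmDiff_assoc, symmDiff_self]
  exact symmDiff_bot ω

theorem Phi_sub {P U : Finset Fc} (hP : P ⊆ U) (c : Ed → ZMod 2) (v : Vx) (k : Fin 3)
    {ω : Finset Fc} (hω : ω ⊆ U) : Phi P c v k ω ⊆ U := by
  classical
  unfold Phi
  intro f hf
  rw [Finset.mem_symmDiff] at hf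
  rcases hf with ⟨h, _⟩ | ⟨h, _⟩
  · exact hω h
  · exact hP (mem_Fl.1 h).1

/-- the flip preserves probabilities -/
theorem Pr_Phi {P U : Finset Fc} (hP : P ⊆ U) (c : Ed → ZMod 2) (v : Vx) (k : Fin 3)
    (A : Finset Fc → Prop) : Pr U (fun ω => A (Phi P c v k ω)) = Pr U A := by
  classical
  rw [Pr_eq, Pr_eq]
  congr 2
  apply Finset.card_nbij' (Phi P c v k) (Phi P c v k)
  · intro ω hω
    simp only [Finset.coe_filter, Finset.mem_powerset, Set.mem_setOf_eq] at hω ⊢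
    exact ⟨Phi_sub hP c v k hω.1, hω.2⟩
  · intro ω hω
    simp only [Finset.coe_filter, Finset.mem_powerset, Set.mem_setOf_eq] at hω ⊢
    exact ⟨Phi_sub hP c v k hω.1, by rw [Phi_Phi]; exact hω.2⟩
  · intro ω _; exact Phi_Phi P c v k ω
  · intro ω _; exact Phi_Phi P c v k ω

end Pool.Agent.H7.UC
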