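import Pool.Agent.H7.UC.NearA
import Pool.Agent.H63.UC.MD2

set_option autoImplicit false
open Pool.Agent.H75.Perc

/-! # Regularity near the boundary: `D6c`, `D6a` -/

namespace Pool.Agent.H7.UC

/-- at most two boundary edges join `T` to the outer component -/
theorem two_bdry {U : Finset Fc} (hU : IsDom U) {T : Set Vx} (hT : ConnSet U T) {z0 : Vx}
    (hz : z0 ∉ T) {w1 w2 w3 : Vx} {l1 l2 l3 : Fin 3}
    (h1 : w1 ∈ T ∧ nb w1 l1 ∈ Out U T z0 ∧ isB U (ed w1 l1))
    (h2 : w2 ∈ T ∧ nb w2 l2 ∈ Out U T z0 ∧ isB U (ed w2 l2))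
    (h3 : w3 ∈ T ∧ nb w3 l3 ∈ Out U T z0 ∧ isB U (ed w3 l3))
    (h12 : ed w1 l1 ≠ ed w2 l2) : ed w3 l3 = ed w1 l1 ∨ ed w3 l3 = ed w2 l2 := by
  by_contra hcon
  push Not at hcon
  obtain ⟨C, hC, hCd⟩ := bchain hU h1.2.2 h2.2.2
  have hpT : ∀ {a b : Vx}, a ∈ T → b ∈ T → Relation.ReflTransGen (StQ U T) a b :=
    fun {a b} ha hb => (rtq_of ha (hT.2 a ha b hb)).2
  have hpO : ∀ {a b : Vx}, a ∈ Out U T z0 → b ∈ Out U T z0 →
      Relation.ReflTransGen (StQ U (Out U T z0)) a b :=
    fun {a b} ha hb => (rtq_symm (Out_conn hz ha)).trans (Out_conn hz hb)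
  obtain ⟨P, hP, hPd⟩ := chain_in (hpT h1.1 h2.1)
  obtain ⟨Q, hQ, hQd⟩ := chain_in (hpO h1.2.1 h2.2.1)
  -- first use of planarity
  have hbB : ∀ {w l}, isB U (ed w l) → isB U (ed (nb w l) l) := by
    intro w l h; rw [ed_nb]; exact h
  have key1 : ∀ {w l}, nb w l ∈ Out U T z0 → isB U (ed w l) → C (ed w1 l1) = C (ed w l) := by
    intro w l ho hb
    have := H63.UC.d2 U hU C P hC (supp_of hP) (fun v => by rw [hCd, hPd]) (Out U T z0)
      (fun v hv k => by
        by_contra h0
        exact Out_nin hv (hP v k h0).2.1) (nb w1 l1) h1.2.1 (nb w l) ho (rtq_to (hpO h1.2.1 ho))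
      l1 l (hbB h1.2.2) (hbB hb)
    rwa [ed_nb, ed_nb] at this
  -- second use of planarity
  let C' : Ed → ZMod 2 := fun e => C e + (H98.UC.sg (ed w1 l1) e + H98.UC.sg (ed w2 l2) e)
  have hC' : ∀ e, C' e ≠ 0 → isB U e := by
    intro e he
    by_contra hB
    apply he
    have e1 : C e = 0 := by
      by_contra h0
      exact hB (hC e h0)
    have e2 : e ≠ ed w1 l1 := fun h => hB (by rw [h]; exact h1.2.2)
    have e3 : e ≠ ed w2 l2 := fun h => hB (by rw [h]; exact h2.2.2)
    simp only [C']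
    rw [e1, H98.UC.sg_ne e2, H98.UC.sg_ne e3]
    rfl
  have hC'd : ∀ v, dv C' v = dv Q v := by
    intro v
    have e1 : dv C' v = dv C v + (dv (H98.UC.sg (ed w1 l1)) v + dv (H98.UC.sg (ed w2 l2)) v) := by
      simp only [C']
      unfold dv
      ring
    rw [e1, hCd, hQd, H98.UC.dv_sg, H98.UC.dv_sg]
    generalize ind {w1} v = a
    generalize ind {w2} v = b
    generalize ind {nb w1 l1} v = c
    generalize ind {nb w2 l2} v = d
    clear * -
    revert a b c d
    decide
  have key2 : C' (ed w1 l1) = C' (ed w3 l3) :=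
    H63.UC.d2 U hU C' Q hC' (supp_of hQ) hC'd T
      (fun v hv k => by
        by_contra h0
        exact Out_nin (hQ v k h0).2.1 hv) w1 h1.1 w3 h3.1 (hT.2 w1 h1.1 w3 h3.1) l1 l3
      h1.2.2 h3.2.2
  have key3 := key1 h3.2.1 h3.2.2
  simp only [C'] at key2
  rw [H98.UC.sg_self, H98.UC.sg_ne h12, H98.UC.sg_ne hcon.1, H98.UC.sg_ne hcon.2, key3] at key2
  generalize C (ed w3 l3) = a at key2
  clear * - key2
  revert a
  decide

/-- first exit from a set, with the initial piece -/
theorem first_exit {α : Type*} {R : α → α → Prop} (V : Set α) {a b : α}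
    (h : Relation.ReflTransGen R a b) (ha : a ∈ V) (hb : b ∉ V) :
    ∃ p q, Relation.ReflTransGen R a p ∧ p ∈ V ∧ q ∉ V ∧ R p q := by
  have key : ∀ b, Relation.ReflTransGen R a b → b ∈ V ∨
      ∃ p q, Relation.ReflTransGen R a p ∧ p ∈ V ∧ q ∉ V ∧ R p q := by
    intro b h
    induction h with
    | refl => exact Or.inl ha
    | @tail c d hac hcd ih =>
      rcases ih with ih | ih
      · by_cases hd : d ∈ V
        · exact Or.inl hd
        · exact Or.inr ⟨c, d, hac, ih, hd, hcd⟩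
      · exact Or.inr ih
  rcases key b h with h1 | h1
  · exact absurd h1 hb
  · exact h1

/-- the exploration from `S` next to the faces of `A` -/
def StA (A : Set Fc) (a b : Vx) : Prop := ∃ l, b = nb a l ∧ (fc a (l + 1) ∈ A ∨ fc a (l + 2) ∈ A)

theorem path_of_sta {A : Set Fc} {w0 w : Vx}
    (h : Relation.ReflTransGen (StA A) w0 w) : w = w0 ∨ ∃ k l, fc w0 k ∈ A ∧ fc w l ∈ A ∧
    Relation.ReflTransGen (fun a b => b ∈ A ∧ adjF a b) (fc w0 k) (fc w l) := by
  induction h with
  | refl => exact Or.inl rfl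
  | @tail b d _ hbd ih =>
    right
    obtain ⟨l, rfl, hl⟩ := hbd
    have hf : ∃ m m', fc b m ∈ A ∧ fc (nb b l) m' = fc b m := by
      rcases hl with hl | hl
      · exact ⟨l + 1, l + 2, hl, fc_nb2 b l⟩
      · exact ⟨l + 2, l + 1, hl, fc_nb1 b l⟩
    obtain ⟨m, m', hm, hm'⟩ := hf
    rcases ih with rfl | ⟨k, l', h1, h2, h3⟩
    · exact ⟨m, m', hm, by rw [hm']; exact hm, by rw [hm']⟩
    · refine ⟨k, m', h1, by rw [hm']; exact hm, ?_⟩
      rw [hm']
      by_cases h4 : l' = m
      · subst h4; exact h3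
      · exact h3.tail ⟨hm, adjF_fc b h4⟩

/-- the cluster of `S` -/
def Tw (A : Set Fc) (S : Set Vx) : Set Vx := {w | ∃ s ∈ S, Relation.ReflTransGen (StA A) s w}

theorem sub_Tw (A : Set Fc) (S : Set Vx) : S ⊆ Tw A S :=
  fun s hs => ⟨s, hs, Relation.ReflTransGen.refl⟩

theorem Tw_conn {U : Finset Fc} {A : Set Fc} (hA : A ⊆ ↑U) {S : Set Vx} (hS : ConnSet U S) :
    ConnSet U (Tw A S) := by
  have hstep : ∀ {s w}, s ∈ S → Relation.ReflTransGen (StA A) s w →
      Relation.ReflTransGen (StQ U (Tw A S)) s w ∧ inV U w := by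
    intro s w hs h
    induction h with
    | refl => exact ⟨Relation.ReflTransGen.refl, hS.1 s hs⟩
    | @tail b c hb hbc ih =>
      have hbT : b ∈ Tw A S := ⟨s, hs, hb⟩
      have hcT : c ∈ Tw A S := ⟨s, hs, hb.tail hbc⟩
      obtain ⟨l, rfl, hl⟩ := hbc
      have hE : inE U (ed b l) := by
        rw [H63.UC.inE_ed]
        exact hl.imp (fun h => hA h) (fun h => hA h)
      exact ⟨ih.1.tail ⟨hbT, hcT, l, rfl, hE⟩, (inV_of_inE hE).2⟩
  refine ⟨?_, ?_⟩
  · rintro w ⟨s, hs, hw⟩
    exact (hstep hs hw).2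
  · rintro a ⟨s, hs, ha⟩ b ⟨t, ht, hb⟩
    apply rtq_to
    have h1 := rtq_symm (hstep hs ha).1
    have h2 := rtq_mono (sub_Tw A S) (rtq_of hs (hS.2 s hs t ht)).2
    exact (h1.trans h2).trans (hstep ht hb).1

theorem ref_xi {U : Finset Fc} {M : Marks U 3} {v0 : Vx} {c0 : Ed → ZMod 2} (h0 : IsRef M v0 c0)
    {ω : Finset Fc} (hω : ω ⊆ U) : IsRef M v0 (xi c0 ω) := by
  refine ⟨?_, ?_⟩
  · intro e he
    by_cases h1 : c0 e = 0
    · apply H63.UC.bd_supp hω
      intro h2
      exact he (by simp [xi, h1, h2])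
    · exact h0.supp e h1
  · intro w
    have : dv (xi c0 ω) w = dv c0 w + dv (bd (↑ω : Set Fc)) w := by unfold dv xi; ring
    rw [this, H63.UC.dv_bd, add_zero, h0.dv]

/-- the core: uniqueness of the exit edge -/
theorem unique_exit {U : Finset Fc} (M : Marks U 3) (hU : IsDom U) {S T : Set Vx} {z0 v : Vx}
    (hST : S ⊆ T) (hT : ConnSet U T) (hz : z0 ∉ T) (hm : ∀ j, M.u j ∈ Out U T z0)
    (hv : v ∉ Out U T z0) {c : Ed → ZMod 2} (hc : IsRef M v c)
    (hcS : ∀ w l, c (ed w l) ≠ 0 → isB U (ed w l) ∨ (w ∉ Out U S z0 ∧ nb w l ∉ Out U S z0))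
    {ω : Finset Fc} (hω : ω ⊆ U)
    (hTω : ∀ w ∈ T, ∀ l, (fc w (l + 1) ∈ U ∧ fc w (l + 1) ∉ ω) ∨
      (fc w (l + 2) ∈ U ∧ fc w (l + 2) ∉ ω) → nb w l ∈ T)
    {w1 w2 : Vx} {l1 l2 : Fin 3} (h1 : w1 ∉ Out U T z0) (h1' : nb w1 l1 ∈ Out U T z0)
    (h1x : xi c ω (ed w1 l1) = 1) (h2 : w2 ∉ Out U T z0) (h2' : nb w2 l2 ∈ Out U T z0)
    (h2x : xi c ω (ed w2 l2) = 1) : w1 = w2 ∧ l1 = l2 := by
  classical
  have hrx := ref_xi hc hω
  -- an exit edge of the chain is a boundary edge and starts in `T`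
  have hA : ∀ w l, w ∉ Out U T z0 → nb w l ∈ Out U T z0 → xi c ω (ed w l) = 1 →
      w ∈ T ∧ isB U (ed w l) := by
    intro w l hw hw' hx
    have hE : inE U (ed w l) := hrx.supp _ (by rw [hx]; decide)
    have hwT : w ∈ T := by
      by_contra h0
      exact hw (Out_step' hw' hE h0)
    refine ⟨hwT, ?_⟩
    rw [H63.UC.isB_iff]
    refine ⟨hE, fun hI => ?_⟩
    have hI' := (H63.UC.inI_ed U w l).1 hI
    have hb : fc w (l + 1) ∈ ω ∧ fc w (l + 2) ∈ ω := by
      constructor
      · by_contra h0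
        exact Out_nin hw' (hTω w hwT l (Or.inl ⟨hI'.1, h0⟩))
      · by_contra h0
        exact Out_nin hw' (hTω w hwT l (Or.inr ⟨hI'.2, h0⟩))
    have e1 : bd (↑ω : Set Fc) (ed w l) = 0 := by
      rw [bd_ed, ind_mem (Finset.mem_coe.2 hb.1), ind_mem (Finset.mem_coe.2 hb.2)]
      decide
    have e2 : c (ed w l) = 0 := by
      by_contra h0
      rcases hcS w l h0 with h3 | h3
      · exact ((H63.UC.isB_iff U _).1 h3).2 hI
      · exact h3.2 (Out_anti hST hw')
    unfold xi at hx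
    rw [e1, e2] at hx
    exact absurd hx (by decide)
  -- it is enough that the edges are equal
  suffices he : ed w1 l1 = ed w2 l2 by
    rw [ed_eq_iff] at he
    obtain ⟨hl, hw | hw⟩ := he
    · exact ⟨hw.symm, hl⟩
    · exact absurd (hw ▸ h1') h2
  by_contra hne
  obtain ⟨t1, b1⟩ := hA w1 l1 h1 h1' h1x
  obtain ⟨t2, b2⟩ := hA w2 l2 h2 h2' h2x
  have hpO : Relation.ReflTransGen (StQ U (Out U T z0)) (nb w1 l1) (nb w2 l2) :=
    (rtq_symm (Out_conn hz h1')).trans (Out_conn hz h2')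
  obtain ⟨Q, hQ, hQd⟩ := chain_in hpO
  -- the part of the chain which touches the inside
  let y : Ed → ZMod 2 := fun e => if ∃ a l, e = ed a l ∧ a ∉ Out U T z0 then xi c ω e else 0
  have hy1 : ∀ w l, w ∉ Out U T z0 → y (ed w l) = xi c ω (ed w l) := by
    intro w l hw
    simp only [y]
    rw [if_pos ⟨w, l, rfl, hw⟩]
  have hyd : ∀ w, dv y w = ind {v} w + (ind {nb w1 l1} w + ind {nb w2 l2} w) := by
    intro w
    by_cases hw : w ∈ Out U T z0
    · -- outside
      have hyy : ∀ l, y (ed w l) = H98.UC.sg (ed w1 l1) (ed w l) + H98.UC.sg (ed w2 l2) (ed w l) := by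
        intro l
        by_cases hn : nb w l ∈ Out U T z0
        · have e0 : y (ed w l) = 0 := by
            simp only [y]
            rw [if_neg]
            rintro ⟨a, m, ha, hao⟩
            rw [ed_eq_iff] at ha
            obtain ⟨rfl, rfl | rfl⟩ := ha
            · exact hao hw
            · exact hao hn
          have e1 : ed w l ≠ ed w1 l1 := by
            intro h0
            rw [ed_eq_iff] at h0
            obtain ⟨rfl, rfl | rfl⟩ := h0
            · exact h1 hw
            · exact h1 hn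
          have e2 : ed w l ≠ ed w2 l2 := by
            intro h0
            rw [ed_eq_iff] at h0
            obtain ⟨rfl, rfl | rfl⟩ := h0
            · exact h2 hw
            · exact h2 hn
          rw [e0, H98.UC.sg_ne e1, H98.UC.sg_ne e2, add_zero]
        · have e0 : y (ed w l) = xi c ω (ed w l) := by
            have := hy1 (nb w l) l hn
            rwa [ed_nb] at this
          rcases z2_cases (xi c ω (ed w l)) with hx | hx
          · have e1 : ed w l ≠ ed w1 l1 := by
              intro h0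
              rw [h0, h1x] at hx
              exact absurd hx (by decide)
            have e2 : ed w l ≠ ed w2 l2 := by
              intro h0
              rw [h0, h2x] at hx
              exact absurd hx (by decide)
            rw [e0, hx, H98.UC.sg_ne e1, H98.UC.sg_ne e2, add_zero]
          · have hA' := hA (nb w l) l hn (by rw [nb_nb]; exact hw) (by rw [ed_nb]; exact hx)
            rcases two_bdry hU hT hz ⟨t1, h1', b1⟩ ⟨t2, h2', b2⟩
              ⟨hA'.1, by rw [nb_nb]; exact hw, hA'.2⟩ hne with h0 | h0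
            · rw [ed_nb] at h0
              have e2 : ed w l ≠ ed w2 l2 := by rw [h0]; exact hne
              rw [e0, hx, H98.UC.sg_ne e2, h0, H98.UC.sg_self, add_zero]
            · rw [ed_nb] at h0
              have e2 : ed w l ≠ ed w1 l1 := by rw [h0]; exact fun h => hne h.symm
              rw [e0, hx, H98.UC.sg_ne e2, h0, H98.UC.sg_self, zero_add]
      have e1 : dv y w = dv (H98.UC.sg (ed w1 l1)) w + dv (H98.UC.sg (ed w2 l2)) w := by
        unfold dv
        rw [hyy, hyy, hyy]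
        ring
      have nv : w ∉ ({v} : Set Vx) := fun h => hv (by rw [← Set.mem_singleton_iff.1 h]; exact hw)
      have n1 : w ∉ ({w1} : Set Vx) := fun h => h1 (by rw [← Set.mem_singleton_iff.1 h]; exact hw)
      have n2 : w ∉ ({w2} : Set Vx) := fun h => h2 (by rw [← Set.mem_singleton_iff.1 h]; exact hw)
      rw [e1, H98.UC.dv_sg, H98.UC.dv_sg, ind_not_mem nv, ind_not_mem n1, ind_not_mem n2]
      ring
    · -- inside
      have e1 : dv y w = dv (xi c ω) w := by
        unfold dv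
        rw [hy1 w _ hw, hy1 w _ hw, hy1 w _ hw]
      have nm : ∀ j, w ∉ ({M.u j} : Set Vx) :=
        fun j h => hw (by rw [Set.mem_singleton_iff.1 h]; exact hm j)
      have n1 : w ∉ ({nb w1 l1} : Set Vx) :=
        fun h => hw (by rw [Set.mem_singleton_iff.1 h]; exact h1')
      have n2 : w ∉ ({nb w2 l2} : Set Vx) :=
        fun h => hw (by rw [Set.mem_singleton_iff.1 h]; exact h2')
      rw [e1, hrx.dv, ind_not_mem (nm 0), ind_not_mem (nm 1), ind_not_mem (nm 2), ind_not_mem n1,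
        ind_not_mem n2]
      ring
  have hzd : ∀ w, dv (fun e => y e + Q e) w = ind {v} w := by
    intro w
    rw [H98.UC.dv_add, hyd, hQd]
    generalize ind {v} w = a
    generalize ind {nb w1 l1} w = b
    generalize ind {nb w2 l2} w = d
    clear * -
    revert a b d
    decide
  have hfin : {e | (fun e => y e + Q e) e ≠ 0}.Finite := by
    apply H98.UC.supp_finite (U := U)
    intro e he
    by_cases h3 : Q e = 0
    · have h4 : y e ≠ 0 := by
        intro h5
        exact he (by simp [h3, h5])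
      simp only [y] at h4
      split_ifs at h4 with h5
      · exact hrx.supp e h4
      · exact absurd rfl h4
    · exact supp_of hQ e h3
  obtain ⟨t, ht, _, ht1⟩ := H98.UC.odd_partner hfin (s := v)
    (by rw [hzd]; exact ind_mem (Set.mem_singleton v))
  rw [hzd, ind_not_mem (by simpa using ht)] at ht1
  exact absurd ht1 (by decide)

theorem d6c (h3 : D3p) (h1c : D1c) : D6c := by
  classical
  intro U M hU S W z0 hz0 hSW hS hSB hH v v' k k' hE hE' hv hvk hv' hvk' c c' hc hc' j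
  obtain ⟨vb, hvb, kb, hkb⟩ := hSB
  -- reference chains
  obtain ⟨k0, h0, _, _, h0C⟩ := M.out 0
  have hu0 : isB U (ed (M.u 0) (k0 + 1)) := (M.mem _).2 ⟨0, h0C⟩
  obtain ⟨β, hβ, hβd⟩ := bchain hU hkb hu0
  have hiv := inV_of_inE hE
  have hiv' := inV_of_inE hE'
  obtain ⟨α, hα, hαd⟩ := chain_in (in_conn hU hS hvb hiv.1 hv)
  obtain ⟨α', hα', hα'd⟩ := chain_in (in_conn hU hS hvb hiv'.1 hv')
  let B : Ed → ZMod 2 := fun e => β e + ind (↑(M.C 1) : Set Ed) e
  have hB : ∀ e, B e ≠ 0 → isB U e := by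
    intro e he
    by_cases h4 : β e = 0
    · have h5 : e ∈ M.C 1 := by
        by_contra h6
        apply he
        simp only [B]
        rw [h4, ind_not_mem (by simpa using h6), add_zero]
      exact (M.mem e).2 ⟨1, h5⟩
    · exact hβ e h4
  have hBd : ∀ w, dv B w = ind {vb} w + ind {M.u 0} w + ind {M.u 1} w + ind {M.u 2} w := by
    intro w
    have e1 : dv B w = dv β w + dv (ind (↑(M.C 1) : Set Ed)) w := by
      simp only [B]
      exact H98.UC.dv_add _ _ _
    rw [e1, hβd, M.dvC]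
    have e2 : (1 : Fin 3) + 1 = 2 := rfl
    rw [e2]
    ring
  let c0 : Ed → ZMod 2 := fun e => α e + B e
  have hc0S : ∀ w l, c0 (ed w l) ≠ 0 →
      isB U (ed w l) ∨ (w ∉ Out U S z0 ∧ nb w l ∉ Out U S z0) := by
    intro w l hw
    by_cases h4 : α (ed w l) = 0
    · left
      apply hB
      intro h5
      apply hw
      simp only [c0]
      rw [h4, h5, add_zero]
    · right
      exact (hα w l h4).2
  have hc0 : IsRef M v c0 := by
    refine ⟨?_, ?_⟩
    · intro e he
      by_cases h4 : α e = 0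
      · apply H63.UC.isB_inE
        apply hB
        intro h5
        apply he
        simp only [c0]
        rw [h4, h5, add_zero]
      · exact supp_of hα e h4
    · intro w
      have e1 : dv c0 w = dv α w + dv B w := by
        simp only [c0]
        exact H98.UC.dv_add _ _ _
      rw [e1, hαd, hBd]
      generalize ind {v} w = a
      generalize ind {vb} w = b
      generalize ind {M.u 0} w = d0
      generalize ind {M.u 1} w = d1
      generalize ind {M.u 2} w = d2
      clear * -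
      revert a b d0 d1 d2
      decide
  let γ : Ed → ZMod 2 := fun e => α e + α' e
  have hγs : ∀ w l, γ (ed w l) ≠ 0 → inE U (ed w l) ∧ w ∉ Out U S z0 ∧ nb w l ∉ Out U S z0 := by
    intro w l hw
    by_cases h4 : α (ed w l) = 0
    · refine hα' w l (fun h5 => hw ?_)
      simp only [γ]
      rw [h4, h5, add_zero]
    · exact hα w l h4
  have hc2 : IsRef M v' (fun e => c0 e + γ e) := by
    refine ⟨?_, ?_⟩
    · intro e he
      by_cases h4 : c0 e = 0
      · obtain ⟨w, l, rfl⟩ := H63.UC.exists_ed e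
        refine (hγs w l (fun h5 => he ?_)).1
        rw [h4, h5, add_zero]
      · exact hc0.supp e h4
    · intro w
      have e1 : dv (fun e => c0 e + γ e) w = dv c0 w + (dv α w + dv α' w) := by
        simp only [γ]
        unfold dv
        ring
      rw [e1, hc0.dv, hαd, hα'd]
      generalize ind {v} w = a
      generalize ind {v'} w = a'
      generalize ind {vb} w = b
      generalize ind {M.u 0} w = d0
      generalize ind {M.u 1} w = d1
      generalize ind {M.u 2} w = d2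
      clear * -
      revert a a' b d0 d1 d2
      decide
  rw [(h1c U M hU v hiv.1).2 c c0 hc hc0 k j,
    (h1c U M hU v' hiv'.1).2 c' (fun e => c0 e + γ e) hc' hc2 k' j]
  -- complement
  have hsymm : Pr U (ArmS S W) = Pr U (fun ω => ArmS S W (symmDiff U ω)) :=
    (H63.UC.Pr_shift U U (Finset.Subset.refl _) (ArmS S W)).symm
  rw [hsymm]
  refine Pr_abs_le (fun ω hω hg => ?_)
  -- the good event
  set A : Set Fc := ↑(symmDiff U ω) with hA
  have hAm : ∀ f, f ∈ A ↔ f ∈ U ∧ f ∉ ω := by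
    intro f
    rw [hA, Finset.mem_coe, Finset.mem_symmDiff]
    constructor
    · rintro (h | h)
      · exact h
      · exact absurd (hω h.1) h.2
    · exact Or.inl
  have hAU : A ⊆ ↑U := fun f hf => ((hAm f).1 hf).1
  set T := Tw A S with hTdef
  have hST : S ⊆ T := sub_Tw A S
  have hTc : ConnSet U T := Tw_conn hAU hS
  have hTW : T ⊆ W := by
    rintro w ⟨s, hs, hw⟩
    by_contra hwW
    rcases path_of_sta hw with rfl | ⟨a, b, ha, hb, hab⟩
    · exact hwW (hSW hs)
    · exact hg ⟨fc s a, fc w b, ha, ⟨s, hs, a, rfl⟩, ⟨w, hwW, b, rfl⟩, hab⟩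
  obtain ⟨hzT, hmT⟩ := hH T hST hTW hTc
  have hTω : ∀ w ∈ T, ∀ l, (fc w (l + 1) ∈ U ∧ fc w (l + 1) ∉ ω) ∨
      (fc w (l + 2) ∈ U ∧ fc w (l + 2) ∉ ω) → nb w l ∈ T := by
    rintro w ⟨s, hs, hw⟩ l hl
    exact ⟨s, hs, hw.tail ⟨l, rfl, hl.imp (fun h => (hAm _).2 h) (fun h => (hAm _).2 h)⟩⟩
  have hanti : Out U T z0 ⊆ Out U S z0 := Out_anti hST
  let V : Set Vx := {w | w ∉ Out U T z0}
  have hvV : v ∈ V := fun h => hv (hanti h)
  have hvkV : nb v k ∈ V := fun h => hvk (hanti h)
  have hv'V : v' ∈ V := fun h => hv' (hanti h)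
  have hvk'V : nb v' k' ∈ V := fun h => hvk' (hanti h)
  have huV : ∀ i, M.u i ∉ V := fun i h => h (hmT i)
  have hneV : ∀ {w}, w ∈ V → ∀ i, w ≠ M.u i := by
    rintro w hw i rfl
    exact huV i hw
  obtain ⟨i1, hi1, hi1'⟩ := h3 U M hU v k hE (fun i => ⟨hneV hvV i, hneV hvkV i⟩) _
    (ref_xi hc0 hω)
  obtain ⟨i2, hi2, hi2'⟩ := h3 U M hU v' k' hE' (fun i => ⟨hneV hv'V i, hneV hvk'V i⟩) _
    (ref_xi hc2 hω)
  -- the strand leaves through the only exit edge
  have hstV : stv (xi c0 ω) v k ∈ V := by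
    rcases stv_or (xi c0 ω) v k with ⟨_, h2⟩ | ⟨_, h2⟩ <;> rw [h2] <;> assumption
  have hK : ∀ w ∈ V, ∀ l, nb w l ∉ V → xi c0 ω (ed w l) = 1 →
      Conn (del (xi c0 ω) (ed v k)) (stv (xi c0 ω) v k) (nb w l) := by
    intro w hw l hn hx
    have hn' : nb w l ∈ Out U T z0 := not_not.1 hn
    have hi1c := (SConn_iff _ _ _ _).1 hi1
    obtain ⟨p, q, hap, hpV, hqV, l', rfl, hpq⟩ := first_exit V hi1c hstV (huV i1)
    have hpq' : xi c0 ω (ed p l') = 1 := by
      by_cases h5 : ed p l' = ed v k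
      · rw [h5, del_self] at hpq
        exact absurd hpq (by decide)
      · rwa [del_ne _ h5] at hpq
    obtain ⟨e1, e2⟩ := unique_exit M hU hST hTc hzT hmT hvV hc0 hc0S hω hTω hpV (not_not.1 hqV) hpq'
      hw hn' hx
    subst e1 e2
    exact hap.tail ⟨l', rfl, hpq⟩
  have hxy : ∀ w l, xi (fun e => c0 e + γ e) ω (ed w l) ≠ xi c0 ω (ed w l) →
      w ∈ V ∧ nb w l ∈ V := by
    intro w l h5
    have h6 : γ (ed w l) ≠ 0 := by
      intro h7
      apply h5
      simp only [xi]
      rw [h7, add_zero]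
    have h8 := (hγs w l h6).2
    exact ⟨fun h => h8.1 (hanti h), fun h => h8.2 (hanti h)⟩
  have hBB : ∀ i, SConn (xi (fun e => c0 e + γ e) ω) v' k' (M.u i) →
      SConn (xi c0 ω) v k (M.u i) :=
    fun i h => cut_principle (huV i) hvV hvkV hv'V hvk'V hxy hK h
  have h12 : i2 = i1 := hi1' i2 (hBB i2 hi2)
  constructor
  · intro h
    have h5 : j = i2 := (hi1' j h).trans h12.symm
    rw [h5]
    exact hi2
  · exact hBB j

theorem d6a (h : D6c) : D6a := by
  intro U M hU x r R hr hR S z0 hz0 hS hSr hSB hH v v' k k' hE hE' hv hvk hv' hvk' c c' hc hc' j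
  refine le_trans (h U M hU S {w | ‖pv w - x‖ ≤ R} z0 hz0 (fun w hw => ?_) hS hSB
    (fun T h1 h2 h3 => hH T h1 h3 h2) v v' k k' hE hE' hv hvk hv' hvk' c c' hc hc' j) ?_
  · have := hSr w hw
    show ‖pv w - x‖ ≤ R
    linarith
  · refine Pr_mono fun ω _ hω => ?_
    obtain ⟨f, g, hf, ⟨s, hs, a, rfl⟩, ⟨w, hw, b, rfl⟩, hp⟩ := hω
    refine ⟨_, _, hf, ?_, ?_, hp⟩
    · have h1 := ctr_pv s a
      have h2 := hSr s hs
      have h3 : ctr (fc s a) - x = (ctr (fc s a) - pv s) + (pv s - x) := by ring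
      rw [h3]
      refine le_trans (norm_add_le _ _) ?_
      linarith
    · have h1 := ctr_pv w b
      have h2 : R < ‖pv w - x‖ := by
        by_contra h0
        exact hw (not_lt.1 h0)
      have h3 : pv w - x = (ctr (fc w b) - x) - (ctr (fc w b) - pv w) := by ring
      rw [h3] at h2
      have h4 := norm_sub_le (ctr (fc w b) - x) (ctr (fc w b) - pv w)
      linarith

end Pool.Agent.H7.UC
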