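import Pool.Agent.H7.UC.Ring
import Pool.Agent.H98.UC.D3
import Pool.Agent.H63.UC.MD1c

set_option autoImplicit false
open Pool.Agent.H75.Perc

/-! # Regularity near the boundary (`D6c`, `D6a`): connectivity lemmas -/

namespace Pool.Agent.H7.UC

theorem inV_of_inE {U : Finset Fc} {v : Vx} {k : Fin 3} (h : inE U (ed v k)) :
    inV U v ∧ inV U (nb v k) := by
  rw [H63.UC.inE_ed] at h
  rcases h with h | h
  · exact ⟨⟨_, h⟩, ⟨k + 2, by rw [fc_nb2]; exact h⟩⟩
  · exact ⟨⟨_, h⟩, ⟨k + 1, by rw [fc_nb1]; exact h⟩⟩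

/-- one step in the graph of `U` with both ends in `Q` -/
def StQ (U : Finset Fc) (Q : Set Vx) (a b : Vx) : Prop :=
  a ∈ Q ∧ b ∈ Q ∧ ∃ k, b = nb a k ∧ inE U (ed a k)

theorem StQ.symm {U : Finset Fc} {Q : Set Vx} {a b : Vx} (h : StQ U Q a b) : StQ U Q b a := by
  obtain ⟨h1, h2, k, rfl, h3⟩ := h
  exact ⟨h2, h1, k, (nb_nb a k).symm, by rw [ed_nb]; exact h3⟩

theorem rtq_symm {U : Finset Fc} {Q : Set Vx} {a b : Vx} (h : Relation.ReflTransGen (StQ U Q) a b) :
    Relation.ReflTransGen (StQ U Q) b a := by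
  induction h with
  | refl => exact Relation.ReflTransGen.refl
  | tail _ h2 ih => exact Relation.ReflTransGen.head h2.symm ih

theorem rtq_mono {U : Finset Fc} {Q Q' : Set Vx} (hQ : Q ⊆ Q') {a b : Vx}
    (h : Relation.ReflTransGen (StQ U Q) a b) : Relation.ReflTransGen (StQ U Q') a b := by
  refine Relation.ReflTransGen.mono ?_ _ _ h
  rintro a b ⟨h1, h2, h3⟩
  exact ⟨hQ h1, hQ h2, h3⟩

/-- the relation of `ConnSet` and `D2` -/
theorem rtq_of {U : Finset Fc} {Q : Set Vx} {a b : Vx} (ha : a ∈ Q)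
    (h : Relation.ReflTransGen (fun a b => b ∈ Q ∧ ∃ k, b = nb a k ∧ inE U (ed a k)) a b) :
    b ∈ Q ∧ Relation.ReflTransGen (StQ U Q) a b := by
  induction h with
  | refl => exact ⟨ha, Relation.ReflTransGen.refl⟩
  | tail _ h2 ih => exact ⟨h2.1, ih.2.tail ⟨ih.1, h2.1, h2.2⟩⟩

theorem rtq_to {U : Finset Fc} {Q : Set Vx} {a b : Vx} (h : Relation.ReflTransGen (StQ U Q) a b) :
    Relation.ReflTransGen (fun a b => b ∈ Q ∧ ∃ k, b = nb a k ∧ inE U (ed a k)) a b := by
  refine Relation.ReflTransGen.mono ?_ _ _ h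
  rintro a b ⟨_, h2, h3⟩
  exact ⟨h2, h3⟩

/-- the graph of `U` is connected -/
theorem path_inV {U : Finset Fc} (hU : IsDom U) {v w : Vx} (hv : inV U v) (hw : inV U w) :
    Relation.ReflTransGen (fun a b => ∃ k, b = nb a k ∧ inE U (ed a k)) v w := by
  by_cases hvw : v = w
  · subst hvw; exact Relation.ReflTransGen.refl
  · obtain ⟨c, h1, h2⟩ := H63.UC.lk_of_inV hU hv hw
    have h3 : dv c v = 1 := by
      rw [h2, ind_mem (s := {v}) (Set.mem_singleton v), ind_not_mem (s := {w}) (by simpa using hvw),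
        add_zero]
    obtain ⟨t, ht, hc, ht1⟩ := H98.UC.odd_partner (H98.UC.supp_finite h1) h3
    have h4 : t = w := by
      by_contra h5
      rw [h2, ind_not_mem (by simpa using ht), ind_not_mem (by simpa using h5), add_zero] at ht1
      exact absurd ht1 (by decide)
    subst h4
    refine Relation.ReflTransGen.mono ?_ _ _ hc
    rintro a b ⟨k, hk, hk1⟩
    exact ⟨k, hk, h1 _ (by rw [hk1]; decide)⟩

/-- the chain of all edges of `U` with both ends in `Q` -/
noncomputable def chn (U : Finset Fc) (Q : Set Vx) : Ed → ZMod 2 :=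
  ind {e | inE U e ∧ ∀ a l, e = ed a l → a ∈ Q}

theorem chn_ed {U : Finset Fc} {Q : Set Vx} {w : Vx} {l : Fin 3} :
    chn U Q (ed w l) = 1 ↔ inE U (ed w l) ∧ w ∈ Q ∧ nb w l ∈ Q := by
  unfold chn
  rw [H63.UC.ind_eq_one]
  constructor
  · rintro ⟨h1, h2⟩
    exact ⟨h1, h2 w l rfl, h2 (nb w l) l (ed_nb w l).symm⟩
  · rintro ⟨h1, h2, h3⟩
    refine ⟨h1, fun a m h => ?_⟩
    rw [ed_eq_iff] at h
    obtain ⟨rfl, rfl | rfl⟩ := h
    · exact h2
    · exact h3

theorem conn_chn {U : Finset Fc} {Q : Set Vx} {a b : Vx} (h : Relation.ReflTransGen (StQ U Q) a b) :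
    Conn (chn U Q) a b := by
  refine Relation.ReflTransGen.mono ?_ _ _ h
  rintro a b ⟨h1, h2, k, rfl, h3⟩
  exact ⟨k, rfl, chn_ed.2 ⟨h3, h1, h2⟩⟩

/-- a connecting chain inside `Q` -/
theorem chain_in {U : Finset Fc} {Q : Set Vx} {a b : Vx} (h : Relation.ReflTransGen (StQ U Q) a b) :
    ∃ P : Ed → ZMod 2, (∀ w l, P (ed w l) ≠ 0 → inE U (ed w l) ∧ w ∈ Q ∧ nb w l ∈ Q) ∧
      ∀ w, dv P w = ind {a} w + ind {b} w := by
  obtain ⟨P, h1, h2, _⟩ := H98.UC.exists_chain (conn_chn h)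
  exact ⟨P, fun w l hw => chn_ed.1 (h1 _ hw), h2⟩

theorem supp_of {U : Finset Fc} {Q : Set Vx} {P : Ed → ZMod 2}
    (h : ∀ w l, P (ed w l) ≠ 0 → inE U (ed w l) ∧ w ∈ Q ∧ nb w l ∈ Q) (e : Ed) (he : P e ≠ 0) :
    inE U e := by
  obtain ⟨v, k, rfl⟩ := H63.UC.exists_ed e
  exact (h v k he).1

/-- two boundary vertices are joined by a chain of boundary edges -/
theorem bchain {U : Finset Fc} (hU : IsDom U) {a b : Vx} {k l : Fin 3} (ha : isB U (ed a k))
    (hb : isB U (ed b l)) : ∃ β : Ed → ZMod 2, (∀ e, β e ≠ 0 → isB U e) ∧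
      ∀ w, dv β w = ind {a} w + ind {b} w := by
  classical
  set bU : Ed → ZMod 2 := bd (↑U : Set Fc) with hbU
  have hb1 : ∀ e, bU e ≠ 0 → isB U e := by
    intro e he
    by_contra h0
    apply he
    rw [hbU]
    unfold bd
    unfold isB at h0
    push Not at h0
    by_cases h1 : lf e ∈ U
    · rw [ind_mem (Finset.mem_coe.2 h1), ind_mem (Finset.mem_coe.2 (h0.1 h1))]
      decide
    · rw [ind_not_mem (by simpa using h1), ind_not_mem (by simpa using h0.2 h1), add_zero]
  let y : Ed → ZMod 2 := ind {e | isB U e ∧ ∀ w m, e = ed w m → Conn bU a w}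
  have hy1 : ∀ w m, y (ed w m) = 1 ↔ isB U (ed w m) ∧ Conn bU a w := by
    intro w m
    simp only [y]
    rw [H63.UC.ind_eq_one]
    constructor
    · rintro ⟨h1, h2⟩
      exact ⟨h1, h2 w m rfl⟩
    · rintro ⟨h1, h2⟩
      refine ⟨h1, fun w' m' h => ?_⟩
      rw [ed_eq_iff] at h
      obtain ⟨rfl, rfl | rfl⟩ := h
      · exact h2
      · exact h2.tail ⟨m, rfl, H63.UC.bd_self_isB h1⟩
  have hyB : ∀ e, y e ≠ 0 → isB U e := by
    intro e he
    have : y e = 1 := (z2_cases _).resolve_left he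
    simp only [y] at this
    rw [H63.UC.ind_eq_one] at this
    exact this.1
  have hyd : ∀ w, dv y w = 0 := by
    intro w
    by_cases hw : Conn bU a w
    · have : ∀ m, y (ed w m) = bU (ed w m) := by
        intro m
        by_cases h1 : isB U (ed w m)
        · rw [(hy1 w m).2 ⟨h1, hw⟩]
          exact (H63.UC.bd_self_isB h1).symm
        · have e1 : y (ed w m) = 0 := by
            by_contra h2
            exact h1 (hyB _ h2)
          have e2 : bU (ed w m) = 0 := by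
            by_contra h2
            exact h1 (hb1 _ h2)
          rw [e1, e2]
      unfold dv
      rw [this, this, this]
      exact H63.UC.dv_bd (↑U : Set Fc) w
    · have : ∀ m, y (ed w m) = 0 := by
        intro m
        by_contra h2
        exact hw ((hy1 w m).1 ((z2_cases _).resolve_left h2)).2
      unfold dv
      rw [this, this, this, add_zero, add_zero]
  have hab : Conn bU a b := by
    rcases H63.UC.d1b U hU y hyB hyd with h | h
    · have h1 := (hy1 a k).2 ⟨ha, Relation.ReflTransGen.refl⟩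
      rw [h] at h1
      exact absurd h1 (by decide)
    · exact ((hy1 b l).1 (h _ hb)).2
  obtain ⟨P, h1, h2, _⟩ := H98.UC.exists_chain hab
  exact ⟨P, fun e he => hb1 e (by rw [h1 e he]; decide), h2⟩

/-! ### the outer component -/

theorem Out_nin {U : Finset Fc} {T : Set Vx} {z0 w : Vx} (h : w ∈ Out U T z0) : w ∉ T := h.1

theorem Out_step {U : Finset Fc} {T : Set Vx} {z0 w : Vx} (h : w ∈ Out U T z0) {k : Fin 3}
    (hk : inE U (ed w k)) (hn : nb w k ∉ T) : nb w k ∈ Out U T z0 :=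
  ⟨hn, h.2.tail ⟨hn, (inV_of_inE hk).2, k, rfl, hk⟩⟩

theorem Out_step' {U : Finset Fc} {T : Set Vx} {z0 w : Vx} {k : Fin 3} (h : nb w k ∈ Out U T z0)
    (hk : inE U (ed w k)) (hn : w ∉ T) : w ∈ Out U T z0 := by
  have := Out_step (k := k) h (by rw [ed_nb]; exact hk) (by rw [nb_nb]; exact hn)
  rwa [nb_nb] at this

theorem Out_anti {U : Finset Fc} {S T : Set Vx} (hST : S ⊆ T) {z0 : Vx} :
    Out U T z0 ⊆ Out U S z0 := by
  rintro w ⟨h1, h2⟩
  refine ⟨fun h => h1 (hST h), Relation.ReflTransGen.mono ?_ _ _ h2⟩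
  rintro a b ⟨h3, h4⟩
  exact ⟨fun h => h3 (hST h), h4⟩

/-- the outer component is connected -/
theorem Out_conn {U : Finset Fc} {T : Set Vx} {z0 w : Vx} (hz : z0 ∉ T) (h : w ∈ Out U T z0) :
    Relation.ReflTransGen (StQ U (Out U T z0)) z0 w := by
  obtain ⟨hw, h⟩ := h
  have key : ∀ w, Relation.ReflTransGen
      (fun a b => b ∉ T ∧ inV U b ∧ ∃ k, b = nb a k ∧ inE U (ed a k)) z0 w →
      w ∈ Out U T z0 ∧ Relation.ReflTransGen (StQ U (Out U T z0)) z0 w := by
    intro w h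
    induction h with
    | refl => exact ⟨⟨hz, Relation.ReflTransGen.refl⟩, Relation.ReflTransGen.refl⟩
    | @tail b c _ h2 ih =>
      have hc : c ∈ Out U T z0 := by
        obtain ⟨h3, _, k, rfl, h4⟩ := h2
        exact Out_step ih.1 h4 h3
      exact ⟨hc, ih.2.tail ⟨ih.1, hc, h2.2.2⟩⟩
  exact (key w h).2

/-- the complement of the outer component is connected -/
theorem in_conn {U : Finset Fc} (hU : IsDom U) {S : Set Vx} (hS : ConnSet U S) {z0 vb w : Vx}
    (hvb : vb ∈ S) (hw : inV U w) (hwo : w ∉ Out U S z0) :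
    Relation.ReflTransGen (StQ U {w | w ∉ Out U S z0}) w vb := by
  have hp := path_inV hU hw (hS.1 vb hvb)
  clear hw
  induction hp using Relation.ReflTransGen.head_induction_on with
  | refl => exact Relation.ReflTransGen.refl
  | @head a d had hd ih =>
    by_cases haS : a ∈ S
    · have h1 := (rtq_of haS (hS.2 a haS vb hvb)).2
      exact rtq_mono (fun x hx h => Out_nin h hx) h1
    · obtain ⟨k, rfl, hk⟩ := had
      have hdo : nb a k ∉ Out U S z0 := fun h => hwo (Out_step' h hk haS)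
      exact Relation.ReflTransGen.head ⟨hwo, hdo, k, rfl, hk⟩ (ih hdo)

end Pool.Agent.H7.UC
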